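import Pool.Agent.Helper2.LD.St2b

/-!
# LD project: DecX2, the reconstruction is an isomorphism
-/

set_option autoImplicit false

namespace Pool.Agent.Helper98.LD

open Pool.Agent.Helper2.LD

private def fdep {K : Type} : Fb K → ℕ
  | Fb.root => 0
  | Fb.a1 _ _ => 1
  | Fb.a2 _ _ => 2
  | Fb.r _ _ => 3
  | Fb.lf _ _ _ => 4
  | Fb.mk _ _ _ j => j + 2

private def cdep {K : Type} : Cl K → ℕ
  | Cl.pl => 0
  | Cl.a1 _ => 1
  | Cl.a2 _ => 2
  | Cl.r _ => 3
  | Cl.l _ => 4
  | Cl.m _ _ j => j + 2

private theorem ok_par {K : Type} {m : ℕ} {code : K → Finset ℕ} {L : Finset K} {f : Fb K}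
    (h : Fb.ok m code L f) : Fb.ok m code L f.par := by
  cases f with
  | root => exact h
  | a1 κ c => trivial
  | a2 κ c => trivial
  | r κ c => trivial
  | lf κ c i => trivial
  | mk κ c i j =>
    simp only [Fb.par]
    split_ifs with h1
    · trivial
    · obtain ⟨h2, h3, h4⟩ := h
      exact ⟨h2, by omega, by omega⟩

private theorem cok_par {K : Type} {code : K → Finset ℕ} {c : Cl K}
    (h : c.ok code) : c.par.ok code := by
  cases c with
  | pl => exact h
  | a1 κ => trivial
  | a2 κ => trivial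
  | r κ => trivial
  | l κ => trivial
  | m κ i j =>
    simp only [Cl.par]
    split_ifs with h1
    · trivial
    · obtain ⟨h2, h3, h4⟩ := h
      exact ⟨h2, by omega, by omega⟩

private theorem ok_cl {K : Type} {m : ℕ} {code : K → Finset ℕ} {L : Finset K} {f : Fb K}
    (h : Fb.ok m code L f) : (clOf f).ok code := by
  cases f with
  | root => trivial
  | a1 κ c => trivial
  | a2 κ c => trivial
  | r κ c => trivial
  | lf κ c i => trivial
  | mk κ c i j => exact h

private theorem cl_par {K : Type} (f : Fb K) : clOf f.par = (clOf f).par := by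
  cases f with
  | root => rfl
  | a1 κ c => rfl
  | a2 κ c => rfl
  | r κ c => rfl
  | lf κ c i => rfl
  | mk κ c i j =>
    simp only [Fb.par, clOf, Cl.par]
    split_ifs with h1
    · rfl
    · rfl

private theorem cl_root {K : Type} {f : Fb K} (h : clOf f = Cl.pl) : f = Fb.root := by
  cases f with
  | root => rfl
  | a1 κ c => simp [clOf] at h
  | a2 κ c => simp [clOf] at h
  | r κ c => simp [clOf] at h
  | lf κ c i => simp [clOf] at h
  | mk κ c i j => simp [clOf] at h

private theorem fdep_par {K : Type} {f : Fb K} (hf : f ≠ Fb.root) : fdep f.par < fdep f := by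
  cases f with
  | root => exact absurd rfl hf
  | a1 κ c => simp [Fb.par, fdep]
  | a2 κ c => simp [Fb.par, fdep]
  | r κ c => simp [Fb.par, fdep]
  | lf κ c i => simp [Fb.par, fdep]
  | mk κ c i j =>
    simp only [Fb.par]
    split_ifs with h1
    · simp only [fdep]
      omega
    · simp only [fdep]
      omega

private theorem cdep_par {K : Type} {c : Cl K} (hf : c ≠ Cl.pl) : cdep c.par < cdep c := by
  cases c with
  | pl => exact absurd rfl hf
  | a1 κ => simp [Cl.par, cdep]
  | a2 κ => simp [Cl.par, cdep]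
  | r κ => simp [Cl.par, cdep]
  | l κ => simp [Cl.par, cdep]
  | m κ i j =>
    simp only [Cl.par]
    split_ifs with h1
    · simp only [cdep]
      omega
    · simp only [cdep]
      omega

private theorem inj_aux {K W : Type} {k : ℕ} {C : KCode k K} {H : SimpleGraph W}
    (hL : LocAx k C.code H) {L : {v // Plv H v} → Finset K} {ψ : {v // Plv H v} → Fb K → W}
    (hG : GadMap k C.code H L ψ) : ∀ (n : ℕ) (v v' : {v // Plv H v}) (f g : Fb K),
    fdep f ≤ n → Fb.ok (MM k) C.code (L v) f → Fb.ok (MM k) C.code (L v') g →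
    ψ v f = ψ v' g → v = v' ∧ f = g := by
  intro n
  induction n with
  | zero =>
    intro v v' f g hn hf hg he
    have hf0 : f = Fb.root := by
      by_contra h
      have := fdep_par h
      omega
    subst hf0
    have h1 := hG.cls v _ hf
    have h2 := hG.cls v' _ hg
    rw [← he] at h2
    have h3 := hL.un _ _ _ (ok_cl hf) (ok_cl hg) h1 h2
    have h4 : g = Fb.root := cl_root h3.symm
    subst h4
    rw [hG.root, hG.root] at he
    exact ⟨Subtype.ext he, rfl⟩
  | succ n ih =>
    intro v v' f g hn hf hg he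
    have h1 := hG.cls v _ hf
    have h2 := hG.cls v' _ hg
    have h2' := h2
    rw [← he] at h2
    have h3 := hL.un _ _ _ (ok_cl hf) (ok_cl hg) h1 h2
    by_cases hf0 : f = Fb.root
    · subst hf0
      have h4 : g = Fb.root := cl_root h3.symm
      subst h4
      rw [hG.root, hG.root] at he
      exact ⟨Subtype.ext he, rfl⟩
    · have hg0 : g ≠ Fb.root := by
        intro h
        subst h
        exact hf0 (cl_root h3)
      have hc0 : clOf f ≠ Cl.pl := fun h => hf0 (cl_root h)
      obtain ⟨w, hw, hw'⟩ := hL.up _ _ (ok_cl hf) h1 hc0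
      have e1 := hw' (ψ v f.par) ⟨hG.adj v f hf hf0, by
        have := hG.cls v _ (ok_par hf)
        rwa [cl_par] at this⟩
      have e2 := hw' (ψ v' g.par) ⟨by rw [he]; exact hG.adj v' g hg hg0, by
        have := hG.cls v' _ (ok_par hg)
        rwa [cl_par, ← h3] at this⟩
      have e3 := ih v v' f.par g.par (by have := fdep_par hf0; omega) (ok_par hf) (ok_par hg)
        (e1.trans e2.symm)
      obtain ⟨e4, e5⟩ := e3
      subst e4
      exact ⟨rfl, hG.inj v f g hf hg hf0 hg0 e5 he⟩

private theorem sur_aux {K W : Type} {k : ℕ} {C : KCode k K} {H : SimpleGraph W}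
    (hL : LocAx k C.code H) {L : {v // Plv H v} → Finset K} {ψ : {v // Plv H v} → Fb K → W}
    (hG : GadMap k C.code H L ψ) : ∀ (n : ℕ) (c : Cl K) (w : W), cdep c ≤ n → c.ok C.code →
    Is k C.code H c w → ∃ v f, Fb.ok (MM k) C.code (L v) f ∧ ψ v f = w := by
  intro n
  induction n with
  | zero =>
    intro c w hn hc hw
    have hc0 : c = Cl.pl := by
      by_contra h
      have := cdep_par h
      omega
    subst hc0
    exact ⟨⟨w, hw⟩, Fb.root, trivial, hG.root _⟩
  | succ n ih =>
    intro c w hn hc hw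
    by_cases hc0 : c = Cl.pl
    · subst hc0
      exact ⟨⟨w, hw⟩, Fb.root, trivial, hG.root _⟩
    · obtain ⟨w', ⟨h1, h2⟩, -⟩ := hL.up _ _ hc hw hc0
      obtain ⟨v, f, hf, hvf⟩ := ih c.par w' (by have := cdep_par hc0; omega) (cok_par hc) h2
      have h3 := hG.cls v _ hf
      rw [hvf] at h3
      have h4 := hL.un _ _ _ (ok_cl hf) (cok_par hc) h3 h2
      obtain ⟨g, hg0, hg, hgp, hgw⟩ := hG.sur v f hf w (by rw [hvf]; exact h1.symm) c hc hw hc0
        h4.symm
      exact ⟨v, g, hg, hgw⟩

private theorem adj_aux {K W : Type} {k : ℕ} {C : KCode k K} {H : SimpleGraph W}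
    (hL : LocAx k C.code H) {L : {v // Plv H v} → Finset K} {ψ : {v // Plv H v} → Fb K → W}
    (hG : GadMap k C.code H L ψ) (v v' : {v // Plv H v}) (f g : Fb K)
    (hf : Fb.ok (MM k) C.code (L v) f) (hg : Fb.ok (MM k) C.code (L v') g)
    (h : H.Adj (ψ v f) (ψ v' g)) (hf0 : f ≠ Fb.root) (hcl : clOf g = (clOf f).par) :
    v = v' ∧ g = f.par := by
  have hc0 : clOf f ≠ Cl.pl := fun h => hf0 (cl_root h)
  obtain ⟨w, hw, hw'⟩ := hL.up _ _ (ok_cl hf) (hG.cls v _ hf) hc0
  have e1 := hw' (ψ v f.par) ⟨hG.adj v f hf hf0, by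
    have := hG.cls v _ (ok_par hf)
    rwa [cl_par] at this⟩
  have e2 := hw' (ψ v' g) ⟨h, by
    have := hG.cls v' _ hg
    rwa [hcl] at this⟩
  have e3 := inj_aux hL hG _ v v' f.par g le_rfl (ok_par hf) hg (e1.trans e2.symm)
  exact ⟨e3.1, e3.2.symm⟩

theorem pDecX2 : StDecX2 := by
  intro K W _ _ k hk C H hL L ψ hG
  let F : EncV (MM k) C.code L → W := fun p => ψ p.1.1 p.1.2
  have hinj : Function.Injective F := by
    rintro ⟨⟨v, f⟩, hf⟩ ⟨⟨v', g⟩, hg⟩ he
    obtain ⟨h1, h2⟩ := inj_aux hL hG _ v v' f g le_rfl hf hg he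
    subst h1
    subst h2
    rfl
  have hsur : Function.Surjective F := by
    intro w
    obtain ⟨c, hc, hw⟩ := hL.ex w
    obtain ⟨v, f, hf, he⟩ := sur_aux hL hG _ c w le_rfl hc hw
    exact ⟨⟨(v, f), hf⟩, he⟩
  have hadj : ∀ p q : EncV (MM k) C.code L, (encG (H.comap (Subtype.val : {v // Plv H v} → W))
      (MM k) C.code L).Adj p q ↔ H.Adj (F p) (F q) := by
    rintro ⟨⟨v, f⟩, hf⟩ ⟨⟨v', g⟩, hg⟩
    constructor
    · rintro (⟨h1, h2, h3⟩ | ⟨h1, h2⟩)
      · simp only at h2 h3
        subst h2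
        subst h3
        change H.Adj (ψ v Fb.root) (ψ v' Fb.root)
        rw [hG.root, hG.root]
        exact h1
      · simp only at h1
        subst h1
        change H.Adj (ψ v f) (ψ v g)
        rcases h2 with ⟨h3, h4⟩ | ⟨h3, h4⟩
        · simp only at h3 h4
          subst h4
          exact hG.adj v f hf h3
        · simp only at h3 h4
          subst h4
          exact (hG.adj v g hg h3).symm
    · intro h
      change H.Adj (ψ v f) (ψ v' g) at h
      rcases hL.nb _ _ _ _ (ok_cl hf) (ok_cl hg) h (hG.cls v _ hf) (hG.cls v' _ hg) with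
        ⟨h1, h2⟩ | ⟨h1, h2⟩ | ⟨h1, h2⟩
      · have e1 := cl_root h1
        have e2 := cl_root h2
        subst e1
        subst e2
        rw [hG.root, hG.root] at h
        exact Or.inl ⟨h, rfl, rfl⟩
      · have hf0 : f ≠ Fb.root := by
          intro e
          subst e
          exact h1 rfl
        obtain ⟨e1, e2⟩ := adj_aux hL hG v v' f g hf hg h hf0 h2
        exact Or.inr ⟨e1, Or.inl ⟨hf0, e2⟩⟩
      · have hg0 : g ≠ Fb.root := by
          intro e
          subst e
          exact h1 rfl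
        obtain ⟨e1, e2⟩ := adj_aux hL hG v' v g f hg hf h.symm hg0 h2
        exact Or.inr ⟨e1.symm, Or.inr ⟨hg0, e2⟩⟩
  let e : EncV (MM k) C.code L ≃ W := Equiv.ofBijective F ⟨hinj, hsur⟩
  refine ⟨⟨e.symm, ?_⟩, ?_⟩
  · intro a b
    rw [hadj]
    have h1 : F (e.symm a) = a := e.apply_symm_apply a
    have h2 : F (e.symm b) = b := e.apply_symm_apply b
    rw [h1, h2]
  · intro v
    have h0 : Fb.ok (MM k) C.code (L v) (Fb.root : Fb K) := trivial
    have h1 : e ⟨(v, Fb.root), h0⟩ = v.1 := hG.root v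
    have h2 : e.symm v.1 = ⟨(v, Fb.root), h0⟩ := e.symm_apply_eq.2 h1.symm
    change (e.symm v.1).1 = _
    rw [h2]

end Pool.Agent.Helper98.LD
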