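import Pool.Agent.Helper2.LD.St1

/-!
# LD project: J3, the third round
-/

set_option autoImplicit false

namespace Pool.Agent.Helper98.LD

open Pool.Agent.Helper2.LD

private theorem j3_brL {K V V' : Type} {h : ℕ} {lab : V → Finset K} {lab' : V' → Finset K}
    {x : BrV K V h} {x' : BrV K V' h} (h1 : x.1.2 = x'.1.2) (h2 : lab x.1.1 = lab' x'.1.1) :
    brL lab x = brL lab' x' := by
  obtain ⟨⟨s, l⟩, hl⟩ := x
  obtain ⟨⟨s', l'⟩, hl'⟩ := x'
  simp only at h1 h2
  subst h1
  cases l with
  | nil => exact h2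
  | cons c l => rfl

private theorem j3_pre {α : Type} (r r' : List α) : ∃ p a b : List α, r = p ++ a ∧ r' = p ++ b ∧
    (a = [] ∨ b = [] ∨ a.head? ≠ b.head?) := by
  induction r generalizing r' with
  | nil => exact ⟨[], [], r', rfl, rfl, Or.inl rfl⟩
  | cons x r ih =>
    cases r' with
    | nil => exact ⟨[], x :: r, [], rfl, rfl, Or.inr (Or.inl rfl)⟩
    | cons y r' =>
      by_cases hxy : x = y
      · subst hxy
        obtain ⟨p, a, b, h1, h2, h3⟩ := ih r'
        exact ⟨x :: p, a, b, by rw [h1]; rfl, by rw [h2]; rfl, h3⟩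
      · exact ⟨[], x :: r, y :: r', rfl, rfl, Or.inr (Or.inr (by simpa using hxy))⟩

private theorem j3_suf {α : Type} (l l' : List α) : ∃ a b w : List α, l = a ++ w ∧ l' = b ++ w ∧
    (a = [] ∨ b = [] ∨ a.getLast? ≠ b.getLast?) := by
  obtain ⟨p, a, b, h1, h2, h3⟩ := j3_pre l.reverse l'.reverse
  refine ⟨a.reverse, b.reverse, p.reverse, ?_, ?_, ?_⟩
  · have := congrArg List.reverse h1
    simpa using this
  · have := congrArg List.reverse h2
    simpa using this
  · rcases h3 with h3 | h3 | h3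
    · left; simp [h3]
    · right; left; simp [h3]
    · right; right
      simpa [List.getLast?_reverse] using h3

private theorem j3_enat {a b d : ℕ} {X : ℕ∞} : (a : ℕ∞) + X + (b : ℕ∞) = (d : ℕ∞) ↔
    ∃ n : ℕ, n ≤ d ∧ X = (n : ℕ∞) ∧ a + n + b = d := by
  constructor
  · intro h
    induction X using ENat.recTopCoe with
    | top => simp at h
    | coe n =>
      have : a + n + b = d := by exact_mod_cast h
      exact ⟨n, by omega, rfl, this⟩
  · rintro ⟨n, -, h1, h2⟩
    rw [h1]
    exact_mod_cast h2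

private theorem j3_dist (hB : StBrD) {K V V' : Type} {k : ℕ} {S : SimpleGraph V}
    {lab : V → Finset K} {S' : SimpleGraph V'} {lab' : V' → Finset K}
    {x y : BrV K V (HH k)} {x' y' : BrV K V' (HH k)} (h : PP k S lab S' lab' x y x' y')
    (d : ℕ) (hd : d ≤ NN k) :
    ((brG K S (HH k)).edist x y = (d : ℕ∞) ↔ (brG K S' (HH k)).edist x' y' = (d : ℕ∞)) := by
  obtain ⟨h1, h2, h3, h4, h5, h6, -⟩ := h
  by_cases hs : x.1.1 = y.1.1
  · have hs' := h5.1 hs
    obtain ⟨a, b, w, e1, e2, e3⟩ := j3_suf x.1.2 y.1.2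
    rw [(hB S (HH k) x y).2 a b w hs e1 e2 e3,
      (hB S' (HH k) x' y').2 a b w hs' (by rw [← h1]; exact e1) (by rw [← h2]; exact e2) e3]
  · have hs' : x'.1.1 ≠ y'.1.1 := fun e => hs (h5.2 e)
    rw [(hB S (HH k) x y).1 hs, (hB S' (HH k) x' y').1 hs', ← h1, ← h2, j3_enat, j3_enat]
    constructor
    · rintro ⟨n, hn, e1, e2⟩
      exact ⟨n, hn, (h6 n (by omega)).1 e1, e2⟩
    · rintro ⟨n, hn, e1, e2⟩
      exact ⟨n, hn, (h6 n (by omega)).2 e1, e2⟩

private theorem j3_same {K : Type} (f : Fb K) : Fb.same f f := by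
  cases f <;> simp [Fb.same]

private theorem j3_ok {K : Type} {m : ℕ} {code : K → Finset ℕ} {L L' : Finset K} {f : Fb K}
    (h : Fb.ok m code L f) (hf : ∀ κ c i, f ≠ Fb.lf κ c i) : Fb.ok m code L' f := by
  cases f with
  | root => trivial
  | a1 κ c => trivial
  | a2 κ c => trivial
  | r κ c => trivial
  | lf κ c i => exact absurd rfl (hf κ c i)
  | mk κ c i j => exact h

/-- The assembly: all fields of `Inv` from the relevant information. -/
private theorem j3_inv (hB : StBrD) {K V V' : Type} {k : ℕ} (hk : 40 ≤ k)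
    (C : KCode k K) (S : SimpleGraph V) (lab : V → Finset K)
    (S' : SimpleGraph V') (lab' : V' → Finset K)
    (u v : FullV k C lab) (u' v' : FullV k C lab') (hJ : J2 S S' u v u' v')
    (w : FullV k C lab) (w' : FullV k C lab') (fl : Bool)
    (hsame : Fb.same (fb w) (fb w'))
    (howu : own w = own u ↔ own w' = own u')
    (howv : own w = own v ↔ own w' = own v')
    (hex : own w = own u ∨ own w = own v → fb w = fb w' ∧
      brL lab (own w) = brL lab' (own w'))
    (hdist : ∀ d : ℕ, (d ≤ EE k ∨ (fl = false ∧ d ≤ NN k)) →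
      ((brG K S (HH k)).edist (own u) (own w) = (d : ℕ∞) ↔
        (brG K S' (HH k)).edist (own u') (own w') = (d : ℕ∞)) ∧
      ((brG K S (HH k)).edist (own v) (own w) = (d : ℕ∞) ↔
        (brG K S' (HH k)).edist (own v') (own w') = (d : ℕ∞)))
    (hht : min (brH (own w)) (NN k) = min (brH (own w')) (NN k))
    (hm3l : ∀ κ c i, fb w = Fb.lf κ c i → ∀ c' i', fb w' = Fb.lf κ c' i' →
      ((c = true ∧ κ ∈ brL lab (own w)) ↔ (c' = true ∧ κ ∈ brL lab' (own w'))))
    (hfl : fl = true → (∃ κ c i, fb w = Fb.lf κ c i) ∧ own w ≠ own u ∧ own w ≠ own v) :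
    Inv k C S lab S' lab' (k - 3) fl (u, u') (v, v') (w, w') [] := by
  obtain ⟨hPP, hfu, hfv⟩ := hJ
  have hN : (2 : ℕ) ^ (k - 3) = NN k := rfl
  have hE : EE k = NN k - 4 := rfl
  have hmem : ∀ a ∈ ([] : List (FullV k C lab × FullV k C lab')) ++ [(w, w'), (v, v'), (u, u')],
      a = (w, w') ∨ a = (v, v') ∨ a = (u, u') := by
    intro a ha
    simpa using ha
  have hext : ∀ {V₀ : Type} {lab₀ : V₀ → Finset K} (a b : FullV k C lab₀),
      a = b ↔ own a = own b ∧ fb a = fb b := by
    intro V₀ lab₀ a b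
    constructor
    · rintro rfl
      exact ⟨rfl, rfl⟩
    · rintro ⟨h1, h2⟩
      exact Subtype.ext (Prod.ext h1 h2)
  have hextB : ∀ {V₀ : Type} (a b : BrV K V₀ (HH k)), a = b ↔ a.1.1 = b.1.1 ∧ a.1.2 = b.1.2 := by
    intro V₀ a b
    constructor
    · rintro rfl
      exact ⟨rfl, rfl⟩
    · rintro ⟨h1, h2⟩
      exact Subtype.ext (Prod.ext h1 h2)
  have huv : own u = own v ↔ own u' = own v' := by
    rw [hextB, hextB]
    obtain ⟨h1, h2, h3, h4, h5, -⟩ := hPP
    rw [h5, h1, h2]
  have hLu : brL lab (own u) = brL lab' (own u') := j3_brL hPP.1 hPP.2.2.1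
  have hLv : brL lab (own v) = brL lab' (own v') := j3_brL hPP.2.1 hPP.2.2.2.1
  have hO : ∀ a ∈ ([] : List (FullV k C lab × FullV k C lab')) ++ [(w, w'), (v, v'), (u, u')],
      ∀ b ∈ ([] : List (FullV k C lab × FullV k C lab')) ++ [(w, w'), (v, v'), (u, u')],
      (own a.1 = own b.1 ↔ own a.2 = own b.2) := by
    intro a ha b hb
    rcases hmem a ha with rfl | rfl | rfl <;> rcases hmem b hb with rfl | rfl | rfl <;>
      simp only
    · exact howv
    · exact howu
    · exact ⟨fun e => (howv.1 e.symm).symm, fun e => (howv.2 e.symm).symm⟩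
    · exact ⟨fun e => (huv.1 e.symm).symm, fun e => (huv.2 e.symm).symm⟩
    · exact ⟨fun e => (howu.1 e.symm).symm, fun e => (howu.2 e.symm).symm⟩
    · exact huv
  have hF : ∀ a ∈ ([] : List (FullV k C lab × FullV k C lab')) ++ [(w, w'), (v, v'), (u, u')],
      ∀ b ∈ ([] : List (FullV k C lab × FullV k C lab')) ++ [(w, w'), (v, v'), (u, u')],
      own a.1 = own b.1 → a = b ∨ (fb a.1 = fb a.2 ∧ fb b.1 = fb b.2) := by
    intro a ha b hb hab
    rcases hmem a ha with rfl | rfl | rfl <;> rcases hmem b hb with rfl | rfl | rfl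
    · exact Or.inl rfl
    · exact Or.inr ⟨(hex (Or.inr hab)).1, hfv⟩
    · exact Or.inr ⟨(hex (Or.inl hab)).1, hfu⟩
    · exact Or.inr ⟨hfv, (hex (Or.inr hab.symm)).1⟩
    · exact Or.inl rfl
    · exact Or.inr ⟨hfv, hfu⟩
    · exact Or.inr ⟨hfu, (hex (Or.inl hab.symm)).1⟩
    · exact Or.inr ⟨hfu, hfv⟩
    · exact Or.inl rfl
  refine ⟨?_, ?_, hO, ?_, ?_, ?_, ?_, ?_, hm3l, ?_⟩
  · simp only [List.length_nil]
    omega
  · intro a ha
    rcases hmem a ha with rfl | rfl | rfl
    · exact hsame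
    · change Fb.same (fb v) (fb v')
      rw [← hfv]
      exact j3_same _
    · change Fb.same (fb u) (fb u')
      rw [← hfu]
      exact j3_same _
  · intro a ha b hb hab
    rcases hF a ha b hb hab with h | ⟨h1, h2⟩
    · subst h
      exact iff_of_true rfl rfl
    · rw [h1, h2]
  · intro a ha b hb
    rw [hext, hext, ← hO a ha b hb]
    constructor
    · rintro ⟨h1, h2⟩
      refine ⟨h1, ?_⟩
      rcases hF a ha b hb h1 with h | ⟨h3, h4⟩
      · rw [h]
      · rw [← h3, ← h4, h2]
    · rintro ⟨h1, h2⟩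
      refine ⟨h1, ?_⟩
      rcases hF a ha b hb h1 with h | ⟨h3, h4⟩
      · rw [h]
      · rw [h3, h4, h2]
  · have hoff : ∀ o : ℕ, (o = 4 ∨ ¬ (fl = true ∧ own w = own w)) → ∀ d o' : ℕ,
        d + o + o' ≤ 2 ^ (k - 3) → (d ≤ EE k ∨ (fl = false ∧ d ≤ NN k)) := by
      intro o ho d o' hd
      rw [hN] at hd
      cases hfl0 : fl with
      | false => exact Or.inr ⟨rfl, by omega⟩
      | true =>
        left
        rcases ho with ho | ho
        · omega
        · exact absurd ⟨hfl0, rfl⟩ ho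
    intro a ha b hb d oa hoa ob hob hd
    have hdN : d ≤ NN k := by rw [hN] at hd; omega
    rcases hmem a ha with rfl | rfl | rfl <;> rcases hmem b hb with rfl | rfl | rfl <;>
      simp only
    · rw [SimpleGraph.edist_self, SimpleGraph.edist_self]
    · rw [SimpleGraph.edist_comm, (hdist d (hoff oa hoa d ob hd)).2, SimpleGraph.edist_comm]
    · rw [SimpleGraph.edist_comm, (hdist d (hoff oa hoa d ob hd)).1, SimpleGraph.edist_comm]
    · rw [(hdist d (hoff ob hob d oa (by omega))).2]
    · rw [SimpleGraph.edist_self, SimpleGraph.edist_self]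
    · rw [SimpleGraph.edist_comm, j3_dist hB hPP d hdN, SimpleGraph.edist_comm]
    · rw [(hdist d (hoff ob hob d oa (by omega))).1]
    · rw [j3_dist hB hPP d hdN]
    · rw [SimpleGraph.edist_self, SimpleGraph.edist_self]
  · intro a ha
    rw [hN]
    rcases hmem a ha with rfl | rfl | rfl
    · exact hht
    · change min (HH k - (own v).1.2.length) _ = min (HH k - (own v').1.2.length) _
      rw [hPP.2.1]
    · change min (HH k - (own u).1.2.length) _ = min (HH k - (own u').1.2.length) _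
      rw [hPP.1]
  · intro a ha hau
    rcases hmem a ha with rfl | rfl | rfl
    · exact hex hau
    · exact ⟨hfv, hLv⟩
    · exact ⟨hfu, hLu⟩
  · intro h
    obtain ⟨h1, h2, h3⟩ := hfl h
    refine ⟨h1, ?_, h2, h3⟩
    intro a ha hao
    rcases hmem a ha with rfl | rfl | rfl
    · rfl
    · exact absurd hao.symm h3
    · exact absurd hao.symm h2

theorem pJ3 (hB : StBrD) (hE3 : StExt3) : StJ3 := by
  intro K V V' _ _ k hk hK C S lab S' lab' hS hS' u v u' v' hJ w
  have hPP := hJ.1
  have hLu : brL lab (own u) = brL lab' (own u') := j3_brL hPP.1 hPP.2.2.1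
  have hLv : brL lab (own v) = brL lab' (own v') := j3_brL hPP.2.1 hPP.2.2.2.1
  have hN : NN k = 2 ^ (k - 3) := rfl
  have hEle : EE k ≤ NN k := Nat.sub_le _ _
  have hextB : ∀ {V₀ : Type} (a b : BrV K V₀ (HH k)), a = b ↔ a.1.1 = b.1.1 ∧ a.1.2 = b.1.2 := by
    intro V₀ a b
    constructor
    · rintro rfl
      exact ⟨rfl, rfl⟩
    · rintro ⟨h1, h2⟩
      exact Subtype.ext (Prod.ext h1 h2)
  have huv : own u = own v ↔ own u' = own v' := by
    rw [hextB, hextB]
    obtain ⟨h1, h2, h3, h4, h5, -⟩ := hPP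
    rw [h5, h1, h2]
  have hcom : ∀ d ≤ NN k, ((brG K S (HH k)).edist (own v) (own u) = (d : ℕ∞) ↔
      (brG K S' (HH k)).edist (own v') (own u') = (d : ℕ∞)) := by
    intro d hd
    rw [SimpleGraph.edist_comm, j3_dist hB hPP d hd, SimpleGraph.edist_comm]
  by_cases hwu : own w = own u
  · -- same owner as `u`
    have hok : Fb.ok (MM k) C.code (brL lab' (own u')) (fb w) := by
      rw [← hLu, ← hwu]
      exact w.2
    refine ⟨⟨(own u', fb w), hok⟩, false, j3_inv hB hk C S lab S' lab' u v u' v' hJ w _ false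
      (j3_same _) ?_ ?_ ?_ ?_ ?_ ?_ ?_⟩
    · exact iff_of_true hwu rfl
    · rw [hwu]
      exact huv
    · intro _
      refine ⟨rfl, ?_⟩
      rw [hwu]
      exact hLu
    · intro d hd
      have hdN : d ≤ NN k := by rcases hd with h | h; · omega
                                · exact h.2
      rw [hwu]
      change (_ ↔ (brG K S' (HH k)).edist (own u') (own u') = _) ∧
        (_ ↔ (brG K S' (HH k)).edist (own v') (own u') = _)
      refine ⟨?_, hcom d hdN⟩
      rw [SimpleGraph.edist_self, SimpleGraph.edist_self]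
    · rw [hwu]
      change min (HH k - (own u).1.2.length) _ = min (HH k - (own u').1.2.length) _
      rw [hPP.1]
    · intro κ c i h1 c' i' h2
      have h3 : fb w = Fb.lf κ c' i' := h2
      rw [h1] at h3
      simp only [Fb.lf.injEq, true_and] at h3
      rw [h3.1, hwu, hLu]
      exact Iff.rfl
    · intro h
      exact absurd h (by simp)
  by_cases hwv : own w = own v
  · have hok : Fb.ok (MM k) C.code (brL lab' (own v')) (fb w) := by
      rw [← hLv, ← hwv]
      exact w.2
    refine ⟨⟨(own v', fb w), hok⟩, false, j3_inv hB hk C S lab S' lab' u v u' v' hJ w _ false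
      (j3_same _) ?_ ?_ ?_ ?_ ?_ ?_ ?_⟩
    · rw [hwv]
      exact ⟨fun e => (huv.1 e.symm).symm, fun e => (huv.2 e.symm).symm⟩
    · exact iff_of_true hwv rfl
    · intro _
      refine ⟨rfl, ?_⟩
      rw [hwv]
      exact hLv
    · intro d hd
      have hdN : d ≤ NN k := by rcases hd with h | h; · omega
                                · exact h.2
      rw [hwv]
      change (_ ↔ (brG K S' (HH k)).edist (own u') (own v') = _) ∧
        (_ ↔ (brG K S' (HH k)).edist (own v') (own v') = _)
      refine ⟨j3_dist hB hPP d hdN, ?_⟩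
      rw [SimpleGraph.edist_self, SimpleGraph.edist_self]
    · rw [hwv]
      change min (HH k - (own v).1.2.length) _ = min (HH k - (own v').1.2.length) _
      rw [hPP.2.1]
    · intro κ c i h1 c' i' h2
      have h3 : fb w = Fb.lf κ c' i' := h2
      rw [h1] at h3
      simp only [Fb.lf.injEq, true_and] at h3
      rw [h3.1, hwv, hLv]
      exact Iff.rfl
    · intro h
      exact absurd h (by simp)
  -- a new owner
  obtain ⟨hX1, hX2⟩ := hE3 k hk K V V' S lab S' lab' hK hS hS' (own u) (own v) (own u') (own v')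
    hPP
  have hne : ∀ (a b : BrV K V (HH k)) (a' b' : BrV K V' (HH k)),
      ((brG K S (HH k)).edist a b = ((0 : ℕ) : ℕ∞) ↔
        (brG K S' (HH k)).edist a' b' = ((0 : ℕ) : ℕ∞)) → (b = a ↔ b' = a') := by
    intro a b a' b' h
    rw [Nat.cast_zero, SimpleGraph.edist_eq_zero_iff, SimpleGraph.edist_eq_zero_iff] at h
    exact ⟨fun e => (h.1 e.symm).symm, fun e => (h.2 e.symm).symm⟩
  by_cases hcrit : ∃ κ i, fb w = Fb.lf κ true i ∧ κ ∈ brL lab (own w)
  · obtain ⟨κ, i, hf, hκ⟩ := hcrit
    obtain ⟨x3', h1, h2, h3⟩ := hX2 (own w) κ hκ hwu hwv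
    have hok : Fb.ok (MM k) C.code (brL lab' x3') (Fb.lf κ true 0) := by
      left
      unfold MM
      omega
    refine ⟨⟨(x3', Fb.lf κ true 0), hok⟩, true, j3_inv hB hk C S lab S' lab' u v u' v' hJ w _
      true ?_ ?_ ?_ ?_ ?_ ?_ ?_ ?_⟩
    · rw [hf]
      exact (rfl : κ = κ)
    · exact hne _ _ _ _ (h2 0 (Nat.zero_le _)).1
    · exact hne _ _ _ _ (h2 0 (Nat.zero_le _)).2
    · rintro (h | h)
      · exact absurd h hwu
      · exact absurd h hwv
    · intro d hd
      rcases hd with h | h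
      · exact h2 d h
      · exact absurd h.1 (by simp)
    · exact h3
    · intro κ₀ c₀ i₀ h4 c' i' h5
      rw [hf] at h4
      simp only [Fb.lf.injEq] at h4
      have h6 : Fb.lf κ true 0 = Fb.lf κ₀ c' i' := h5
      simp only [Fb.lf.injEq] at h6
      obtain ⟨rfl, rfl, rfl⟩ := h4
      exact iff_of_true ⟨rfl, hκ⟩ ⟨h6.2.1.symm, h1⟩
    · intro _
      exact ⟨⟨κ, true, i, hf⟩, hwu, hwv⟩
  · obtain ⟨x3', h2, h3⟩ := hX1 (own w)
    by_cases hlf : ∃ κ c i, fb w = Fb.lf κ c i
    · obtain ⟨κ, c, i, hf⟩ := hlf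
      have hok : Fb.ok (MM k) C.code (brL lab' x3') (Fb.lf κ false 0) := by
        left
        unfold MM
        omega
      refine ⟨⟨(x3', Fb.lf κ false 0), hok⟩, false, j3_inv hB hk C S lab S' lab' u v u' v' hJ w _
        false ?_ ?_ ?_ ?_ ?_ ?_ ?_ ?_⟩
      · rw [hf]
        exact (rfl : κ = κ)
      · exact hne _ _ _ _ (h2 0 (Nat.zero_le _)).1
      · exact hne _ _ _ _ (h2 0 (Nat.zero_le _)).2
      · rintro (h | h)
        · exact absurd h hwu
        · exact absurd h hwv
      · intro d hd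
        refine h2 d ?_
        rcases hd with h | h
        · omega
        · exact h.2
      · exact h3
      · intro κ₀ c₀ i₀ h4 c' i' h5
        have h6 : Fb.lf κ false 0 = Fb.lf κ₀ c' i' := h5
        simp only [Fb.lf.injEq] at h6
        refine iff_of_false ?_ ?_
        · rintro ⟨h7, h8⟩
          subst h7
          exact hcrit ⟨κ₀, i₀, h4, h8⟩
        · rintro ⟨h7, -⟩
          rw [← h6.2.1] at h7
          exact absurd h7 (by simp)
      · intro h
        exact absurd h (by simp)
    · have hok : Fb.ok (MM k) C.code (brL lab' x3') (fb w) :=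
        j3_ok w.2 (fun κ c i h => hlf ⟨κ, c, i, h⟩)
      refine ⟨⟨(x3', fb w), hok⟩, false, j3_inv hB hk C S lab S' lab' u v u' v' hJ w _
        false (j3_same _) ?_ ?_ ?_ ?_ ?_ ?_ ?_⟩
      · exact hne _ _ _ _ (h2 0 (Nat.zero_le _)).1
      · exact hne _ _ _ _ (h2 0 (Nat.zero_le _)).2
      · rintro (h | h)
        · exact absurd h hwu
        · exact absurd h hwv
      · intro d hd
        refine h2 d ?_
        rcases hd with h | h
        · omega
        · exact h.2
      · exact h3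
      · intro κ c i h
        exact absurd ⟨κ, c, i, h⟩ hlf
      · intro h
        exact absurd h (by simp)

end Pool.Agent.Helper98.LD
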