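import Pool.Agent.Helper2.LD.St5

/-!
# LD project, module Cls: classification of the hubs of the tree skeleton
-/

set_option autoImplicit false

namespace Pool.Agent.Helper98.LD

open Pool.Agent.Helper2.LD

variable {V Q Λ B FB : Type}

section gen

variable {N e : ℕ} {c : Core V Q Λ B FB} {s : Ch V Q}

private def tv (x : TH V Q (Kd N Λ B FB)) (h : okT N e c s x) : TV N e c s := ⟨x, h⟩

private theorem self_le (x : TV N e c s) (r : ℕ) : (TG N e c s).edist x x ≤ (r : ℕ∞) := by
  rw [SimpleGraph.edist_self]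
  exact zero_le

private theorem pb_coreT (u z : V) :
    (∃ q j, pb N e c s true u (GH.core z : GH V Q (Kd N Λ B FB)) = .gho q j) ∨
      ∃ w, pb N e c s true u (GH.core z : GH V Q (Kd N Λ B FB)) = .core w := by
  by_cases h : true = true ∧ ∃ q, c.ow q = u ∧ c.ow ((c.nx^[2 * e]) q) = z
  · exact Or.inl ⟨_, _, dif_pos h⟩
  · exact Or.inr ⟨_, dif_neg h⟩

private theorem pb_coreF (u z : V) :
    pb N e c s false u (GH.core z : GH V Q (Kd N Λ B FB)) = .core (s.pr u z) := by
  have h : ¬ (false = true ∧ ∃ q, c.ow q = u ∧ c.ow ((c.nx^[2 * e]) q) = z) := by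
    rintro ⟨h7, -⟩
    cases h7
  simp only [pb]
  rw [dif_neg h]

private theorem lvl (hT : StTok) (hp : Par N e) (hc : CoreAx N e c) (hs : ChAx N c s) :
    ∀ (i : ℕ) (x : TH V Q (Kd N Λ B FB)), okT N e c s x → i ≤ tlev N c x →
      okT N e c s ((tpar N e c s)^[i] x) ∧ tlev N c ((tpar N e c s)^[i] x) + i = tlev N c x ∧
        pc ((tpar N e c s)^[i] x) = pc x := by
  intro i
  induction i with
  | zero => intro x hx _; exact ⟨hx, rfl, rfl⟩
  | succ n ih =>
    intro x hx hi
    obtain ⟨h1, h2, h3⟩ := hT.ok N e c s hp hc hs x hx (by omega)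
    obtain ⟨h4, h5, h6⟩ := ih (tpar N e c s x) h1 (by omega)
    rw [Function.iterate_succ_apply]
    exact ⟨h4, by omega, h6.trans h3⟩

private theorem it_nat (b : Bool) (u : V) (h : GH V Q (Kd N Λ B FB)) (k : ℕ) :
    (tpar N e c s)^[k] (.nat b u h) = .nat b u ((pb N e c s b u)^[k] h) := by
  induction k generalizing h with
  | zero => rfl
  | succ n ih =>
    rw [Function.iterate_succ_apply, Function.iterate_succ_apply]
    exact ih _

private theorem it_cap (b : Bool) (u : V) (h : GH V Q (Kd N Λ B FB)) (k : ℕ) :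
    (tpar N e c s)^[k + 1] (.cap b u h) = .nat b u ((pb N e c s b u)^[k] h) := by
  rw [Function.iterate_succ_apply]
  exact it_nat b u h k

/-- the trunk path starting at the core vertex -/
private def up (z : V) (j : ℕ) : GH V Q (Kd N Λ B FB) := if j = 0 then .core z else .tru z j

private def ug (c : Core V Q Λ B FB) (q : Q) (j : ℕ) : GH V Q (Kd N Λ B FB) :=
  if j = 0 then .core (c.ow q) else .gho q j

private theorem pb_up (b : Bool) (u z : V) (j : ℕ) :
    pb N e c s b u (up z (j + 1)) = (up z j : GH V Q (Kd N Λ B FB)) := by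
  have h1 : (up z (j + 1) : GH V Q (Kd N Λ B FB)) = .tru z (j + 1) := rfl
  rw [h1]
  have h2 : pb N e c s b u (GH.tru z (j + 1) : GH V Q (Kd N Λ B FB)) =
    if j + 1 ≤ 1 then .core z else .tru z j := rfl
  rw [h2]
  rcases j with _ | j
  · rfl
  · rw [if_neg (by omega)]
    rfl

private theorem pb_ug (b : Bool) (u : V) (q : Q) (j : ℕ) :
    pb N e c s b u (ug c q (j + 1)) = (ug c q j : GH V Q (Kd N Λ B FB)) := by
  have h1 : (ug c q (j + 1) : GH V Q (Kd N Λ B FB)) = .gho q (j + 1) := rfl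
  rw [h1]
  have h2 : pb N e c s b u (GH.gho q (j + 1) : GH V Q (Kd N Λ B FB)) =
    if j + 1 ≤ 1 then .core (c.ow q) else .gho q j := rfl
  rw [h2]
  rcases j with _ | j
  · rfl
  · rw [if_neg (by omega)]
    rfl

private theorem it_up (b : Bool) (u z : V) (k j : ℕ) :
    (pb N e c s b u)^[k] (up z (k + j)) = (up z j : GH V Q (Kd N Λ B FB)) := by
  induction k with
  | zero => rw [Nat.zero_add]; rfl
  | succ n ih =>
    rw [Function.iterate_succ_apply]
    have h1 : n + 1 + j = (n + j) + 1 := by omega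
    rw [h1, pb_up]
    exact ih

private theorem it_ug (b : Bool) (u : V) (q : Q) (k j : ℕ) :
    (pb N e c s b u)^[k] (ug c q (k + j)) = (ug c q j : GH V Q (Kd N Λ B FB)) := by
  induction k with
  | zero => rw [Nat.zero_add]; rfl
  | succ n ih =>
    rw [Function.iterate_succ_apply]
    have h1 : n + 1 + j = (n + j) + 1 := by omega
    rw [h1, pb_ug]
    exact ih

private theorem lev_up (u z : V) (j : ℕ) :
    lev N c u (up z j : GH V Q (Kd N Λ B FB)) = c.G.dist u z + j := by
  unfold up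
  split_ifs with h
  · rw [h]; rfl
  · rfl

private theorem lev_ug (u : V) (q : Q) (j : ℕ) :
    lev N c u (ug c q j : GH V Q (Kd N Λ B FB)) = c.G.dist u (c.ow q) + j := by
  unfold ug
  split_ifs with h
  · rw [h]; rfl
  · rfl

private theorem ok_up (z : V) (j : ℕ) (hj : j < 2 * N) :
    okG N e c (up z j : GH V Q (Kd N Λ B FB)) := by
  unfold up
  split_ifs with h
  · trivial
  · exact ⟨by omega, hj⟩

private theorem ok_ug (q : Q) (j : ℕ) (hj : j ≤ 2 * N) :
    okG N e c (ug c q j : GH V Q (Kd N Λ B FB)) := by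
  unfold ug
  split_ifs with h
  · trivial
  · exact ⟨by omega, hj⟩

/-- a descendant with a cap -/
private theorem rgOf (hD : StTdist) (hp : Par N e) (hc : CoreAx N e c) (hs : ChAx N c s)
    (b : Bool) (u : V) (h g : GH V Q (Kd N Λ B FB)) (k r : ℕ) (hok : okT N e c s (.nat b u h))
    (hg : okT N e c s (.cap b u g)) (hk : (pb N e c s b u)^[k] g = h)
    (hk2 : k ≤ lev N c u g) (hr : k + 1 ≤ r) : Rg N e c s r (.nat b u h) := by
  refine ⟨(tv _ hok), (tv _ hg), rfl, ⟨b, u, g, rfl⟩, ?_⟩
  rw [hD.inn N e c s hp hc hs (tv _ hg) (tv _ hok) rfl r]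
  refine ⟨k + 1, 0, ?_, Nat.zero_le _, by omega, ?_⟩
  · have h1 : tlev N c (TH.cap b u g : TH V Q (Kd N Λ B FB)) = lev N c u g + 1 := rfl
    show k + 1 ≤ tlev N c (TH.cap b u g : TH V Q (Kd N Λ B FB))
    omega
  · show (tpar N e c s)^[k + 1] (.cap b u g) = .nat b u h
    rw [it_cap, hk]

private theorem low (hT : StTok) (hD : StTdist) (hp : Par N e) (hc : CoreAx N e c)
    (hs : ChAx N c s) (x y : TV N e c s) (hxy : pc x.1 = pc y.1) (r : ℕ)
    (h : (TG N e c s).edist x y ≤ (r : ℕ∞)) : tlev N c x.1 ≤ tlev N c y.1 + r := by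
  obtain ⟨i, j, hi, hj, hij, h1⟩ := (hD.inn N e c s hp hc hs x y hxy r).1 h
  have h2 := (lvl hT hp hc hs i x.1 x.2 hi).2.1
  have h3 := (lvl hT hp hc hs j y.1 y.2 hj).2.1
  rw [h1] at h2
  omega

private theorem okp (hp : Par N e) (b : Bool) (u : V) (hu : s.rp u = u) :
    okT N e c s (.pth b u 1) := by
  obtain ⟨h1, h2⟩ := hp
  exact ⟨hu, le_rfl, by omega⟩

/-- the cap of the piece which is connected to the root -/
private theorem levcc (hT : StTok) (hp : Par N e) (hc : CoreAx N e c) (hs : ChAx N c s)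
    (b : Bool) (u : V) (hu : s.rp u = u) :
    tlev N c (TH.cap b u (cc N s b u) : TH V Q (Kd N Λ B FB)) = dep N b + 1 := by
  have h1 := hT.okc (Λ := Λ) (B := B) (FB := FB) N e c s hp hc hs b u hu
  have h2 : lev N c u (cc N s b u : GH V Q (Kd N Λ B FB)) = dep N b := h1.2.2.1
  show lev N c u (cc N s b u : GH V Q (Kd N Λ B FB)) + 1 = _
  rw [h2]

private theorem natrp (b : Bool) (u : V) (h : GH V Q (Kd N Λ B FB))
    (hok : okT N e c s (.nat b u h)) : s.rp u = u := hok.1

/-- reduce to caps of the same piece -/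
private theorem toPiece (hT : StTok) (hD : StTdist) (hp : Par N e) (hc : CoreAx N e c)
    (hs : ChAx N c s) (x υ : TV N e c s) (b : Bool) (u : V) (h : GH V Q (Kd N Λ B FB))
    (hx : x.1 = .nat b u h) (hυ : ∃ b u h, υ.1 = .cap b u h) (r : ℕ)
    (hr : (TG N e c s).edist υ x ≤ (r : ℕ∞)) :
    ∃ (υ' : TV N e c s) (h' : GH V Q (Kd N Λ B FB)), υ'.1 = .cap b u h' ∧
      (h' = cc N s b u ∨ υ'.1 = υ.1) ∧ (TG N e c s).edist υ' x ≤ (r : ℕ∞) := by
  obtain ⟨b', u', h', hυ⟩ := hυ
  by_cases hbu : (b', u') = (b, u)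
  · obtain ⟨rfl, rfl⟩ := Prod.mk.inj hbu
    exact ⟨υ, h', hυ, Or.inr rfl, hr⟩
  · have hok : okT N e c s (.nat b u h) := hx ▸ x.2
    have hu := natrp b u h hok
    have hokc := hT.okc (Λ := Λ) (B := B) (FB := FB) N e c s hp hc hs b u hu
    refine ⟨(tv _ hokc), cc N s b u, rfl, Or.inl rfl, ?_⟩
    have h1 := hD.out N e c s hp hc hs x υ (tv _ hokc) (tv _ (okp hp b u hu)) b u
      (by rw [hx]; rfl) (by
        rw [hυ]
        intro h2
        exact hbu (Option.some.inj h2)) rfl rfl
    rw [SimpleGraph.edist_comm] at hr ⊢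
    rw [h1] at hr
    refine le_trans ?_ hr
    rw [add_assoc]
    exact le_self_add

private theorem lowcap (hT : StTok) (hD : StTdist) (hp : Par N e) (hc : CoreAx N e c)
    (hs : ChAx N c s) (x υ : TV N e c s) (b : Bool) (u : V) (h : GH V Q (Kd N Λ B FB))
    (hx : x.1 = .nat b u h) (hυ : ∃ b u h, υ.1 = .cap b u h) (r : ℕ)
    (hr : (TG N e c s).edist υ x ≤ (r : ℕ∞)) : dep N b + 1 ≤ lev N c u h + r := by
  obtain ⟨υ', h', h1, -, h2⟩ := toPiece hT hD hp hc hs x υ b u h hx hυ r hr
  have h3 := low hT hD hp hc hs υ' x (by rw [h1, hx]; rfl) r h2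
  rw [h1, hx] at h3
  have h4 : okT N e c s (.cap b u h') := h1 ▸ υ'.2
  have h5 : lev N c u h' = dep N b := h4.2.2.1
  have h6 : tlev N c (TH.cap b u h' : TH V Q (Kd N Λ B FB)) = lev N c u h' + 1 := rfl
  have h7 : tlev N c (TH.nat b u h : TH V Q (Kd N Λ B FB)) = lev N c u h := rfl
  omega

private theorem lowO (hT : StTok) (hD : StTdist) (hp : Par N e) (hc : CoreAx N e c)
    (hs : ChAx N c s) (x υ : TV N e c s) (b : Bool) (u : V) (h h' : GH V Q (Kd N Λ B FB))
    (O : GH V Q (Kd N Λ B FB) → Prop)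
    (hx : x.1 = .nat b u h) (hυ : υ.1 = .cap b u h') (r : ℕ) (hO : O h) (hnO : ¬ O h')
    (back : ∀ g, O (pb N e c s b u g) → O g)
    (anc : ∀ g, okG N e c g → O g → lev N c u g ≠ 0 → O (pb N e c s b u g) ∨
      lev N c u (pb N e c s b u g) = 0)
    (hr : (TG N e c s).edist υ x ≤ (r : ℕ∞)) : dep N b + 1 + lev N c u h ≤ r := by
  obtain ⟨i, j, hi, hj, hij, h1⟩ := (hD.inn N e c s hp hc hs υ x (by rw [hυ, hx]; rfl) r).1 hr
  have h2 := (lvl hT hp hc hs i υ.1 υ.2 hi).2.1
  have h3 := (lvl hT hp hc hs j x.1 x.2 hj).2.1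
  have h4 : okT N e c s (.cap b u h') := hυ ▸ υ.2
  have h5 : lev N c u h' = dep N b := h4.2.2.1
  have h6 : tlev N c (TH.cap b u h' : TH V Q (Kd N Λ B FB)) = lev N c u h' + 1 := rfl
  have h7 : tlev N c (TH.nat b u h : TH V Q (Kd N Λ B FB)) = lev N c u h := rfl
  rw [h1] at h2
  rw [hυ, h6] at h2
  rw [hx, h7] at h3
  rw [hx] at h2
  by_cases hm : tlev N c ((tpar N e c s)^[j] (TH.nat b u h : TH V Q (Kd N Λ B FB))) = 0
  · omega
  · exfalso
    -- all ancestors of positive level are in O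
    have hokx : okT N e c s (.nat b u h) := hx ▸ x.2
    have key : ∀ k, k < lev N c u h → O ((pb N e c s b u)^[k] h) := by
      intro k
      induction k with
      | zero => intro _; exact hO
      | succ n ih =>
        intro hk
        have h8 := ih (by omega)
        have h9 := lvl hT hp hc hs n (.nat b u h) hokx (by rw [h7]; omega)
        rw [it_nat] at h9
        have h10 : okG N e c ((pb N e c s b u)^[n] h) := h9.1.2.1
        have h11 : lev N c u ((pb N e c s b u)^[n] h) + n = lev N c u h := h9.2.1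
        have h12 := lvl hT hp hc hs (n + 1) (.nat b u h) hokx (by rw [h7]; omega)
        rw [it_nat] at h12
        have h13 : lev N c u ((pb N e c s b u)^[n + 1] h) + (n + 1) = lev N c u h := h12.2.1
        rw [Function.iterate_succ_apply'] at h13 ⊢
        rcases anc _ h10 h8 (by omega) with h14 | h14
        · exact h14
        · omega
    have hj' : j < lev N c u h := by
      rw [it_nat] at h3 hm
      have : lev N c u ((pb N e c s b u)^[j] h) ≠ 0 := hm
      have h3' : lev N c u ((pb N e c s b u)^[j] h) + j = lev N c u h := h3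
      omega
    have h8 := key j hj'
    rw [hυ, hx, it_nat] at h1
    rcases i with _ | i
    · rw [Function.iterate_zero, id] at h1
      cases h1
    · rw [it_cap] at h1
      have h9 : (pb N e c s b u)^[i] h' = (pb N e c s b u)^[j] h := by
        injection h1
      rw [← h9] at h8
      have h10 : ∀ k, O ((pb N e c s b u)^[k] h') → O h' := by
        intro k
        induction k with
        | zero => exact id
        | succ n ih =>
          intro h11
          rw [Function.iterate_succ_apply'] at h11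
          exact ih (back _ h11)
      exact hnO (h10 _ h8)

private theorem pthlev (b : Bool) (u : V) (j : ℕ) :
    tlev N c (TH.pth b u j : TH V Q (Kd N Λ B FB)) = 2 * N + 1 - j := rfl

/-- distance between a cap and a hub outside the pieces -/
private theorem lowpth (hT : StTok) (hD : StTdist) (hp : Par N e) (hc : CoreAx N e c)
    (hs : ChAx N c s) (x υ : TV N e c s) (hx : pc x.1 = none)
    (hυ : ∃ b u h, υ.1 = .cap b u h) (r : ℕ)
    (hr : (TG N e c s).edist υ x ≤ (r : ℕ∞)) : 2 * N + 1 ≤ tlev N c x.1 + r := by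
  obtain ⟨b, u, h, hυ⟩ := hυ
  have hok : okT N e c s (.cap b u h) := hυ ▸ υ.2
  have hu : s.rp u = u := hok.1
  have hokc := hT.okc (Λ := Λ) (B := B) (FB := FB) N e c s hp hc hs b u hu
  have h1 := hD.out N e c s hp hc hs υ x (tv _ hokc) (tv _ (okp hp b u hu)) b u
    (by rw [hυ]; rfl) (by rw [hx]; exact nofun) rfl rfl
  rw [h1] at hr
  have h2 : (1 : ℕ∞) + (TG N e c s).edist (tv _ (okp hp b u hu)) x ≤ (r : ℕ∞) := by
    refine le_trans ?_ hr
    rw [add_assoc]
    exact le_add_self
  have hr1 : 1 ≤ r := by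
    have h3 : (1 : ℕ∞) ≤ (r : ℕ∞) := le_trans le_self_add h2
    exact_mod_cast h3
  obtain ⟨r', rfl⟩ : ∃ r', r = r' + 1 := ⟨r - 1, by omega⟩
  have h3 : (TG N e c s).edist (tv _ (okp hp b u hu)) x ≤ ((r' : ℕ) : ℕ∞) := by
    rw [Nat.cast_add, Nat.cast_one, add_comm] at h2
    exact (ENat.add_le_add_iff_right ENat.one_ne_top).1 h2
  have h4 := low hT hD hp hc hs _ x (by rw [hx]; rfl) r' h3
  have h5 : tlev N c (tv _ (okp hp b u hu) : TV N e c s).1 = 2 * N + 1 - 1 := rfl
  omega

private theorem it_pth (b : Bool) (u : V) (j : ℕ) (hj : j + 1 ≤ 2 * N) :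
    (tpar N e c s)^[j] (TH.pth b u 1 : TH V Q (Kd N Λ B FB)) = .pth b u (j + 1) := by
  induction j with
  | zero => rfl
  | succ n ih =>
    rw [Function.iterate_succ_apply', ih (by omega)]
    have h1 : tpar N e c s (TH.pth b u (n + 1) : TH V Q (Kd N Λ B FB)) =
      if n + 1 = 2 * N then .rt else .pth b u (n + 1 + 1) := rfl
    rw [h1, if_neg (by omega)]

private theorem rgpth (hT : StTok) (hD : StTdist) (hp : Par N e) (hc : CoreAx N e c)
    (hs : ChAx N c s) (b : Bool) (u : V) (j : ℕ) (hok : okT N e c s (.pth b u j)) (r : ℕ)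
    (hr : j ≤ r) : Rg N e c s r (.pth b u j) := by
  obtain ⟨hu, hj1, hj2⟩ := id hok
  have hokc := hT.okc (Λ := Λ) (B := B) (FB := FB) N e c s hp hc hs b u hu
  refine ⟨(tv _ hok), (tv _ hokc), rfl, ⟨b, u, _, rfl⟩, ?_⟩
  rw [hD.out N e c s hp hc hs (tv _ hokc) (tv _ hok) (tv _ hokc) (tv _ (okp hp b u hu)) b u rfl
    (by show none ≠ some (b, u); exact nofun) rfl rfl]
  rw [SimpleGraph.edist_self, zero_add]
  have h1 : (TG N e c s).edist (tv _ (okp hp b u hu)) (tv _ hok) ≤
      ((j - 1 : ℕ) : ℕ∞) := by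
    rw [hD.inn N e c s hp hc hs (tv _ (okp hp b u hu)) (tv _ hok) rfl (j - 1)]
    refine ⟨j - 1, 0, ?_, Nat.zero_le _, by omega, ?_⟩
    · show j - 1 ≤ 2 * N + 1 - 1
      omega
    · show (tpar N e c s)^[j - 1] (TH.pth b u 1 : TH V Q (Kd N Λ B FB)) = .pth b u j
      rw [it_pth _ _ _ (by omega)]
      congr 1
      omega
  have h2 : ((1 : ℕ∞) + ((j - 1 : ℕ) : ℕ∞)) ≤ (r : ℕ∞) := by
    have h3 : 1 + (j - 1) ≤ r := by omega
    exact_mod_cast h3
  exact le_trans (add_le_add_right h1 1) h2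

/-- the strong hubs, uniformly -/
private theorem strongAux (hD : StTdist) (hp : Par N e) (hc : CoreAx N e c)
    (hs : ChAx N c s) (b : Bool) (u : V) (h : GH V Q (Kd N Λ B FB))
    (hok : okT N e c s (.nat b u h)) (r : ℕ)
    (h1 : b = true → lev N c u h ≠ 0 ∧ (∀ j, h ≠ .tru u j) ∧ ∀ l, h ≠ .fan u l)
    (h2 : b = false → ∀ q j, c.ow q = u → h ≠ .gho q j)
    (hr : dep N b + 1 ≤ lev N c u h + r) : Rg N e c s r (.nat b u h) := by
  obtain ⟨hu, hG, hl⟩ := id hok
  obtain ⟨hp1, hp2⟩ := id hp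
  have hl' : lev N c u h ≤ dep N b := by
    rcases hl with hl | ⟨hb, q, hq, rfl⟩
    · exact hl
    · exact absurd rfl (h2 hb q _ hq)
  have hd : dep N b ≤ 2 * N ∧ (b = false → dep N b = 2 * N - 1) := by
    unfold dep
    split_ifs with hb
    · refine ⟨le_rfl, fun h3 => ?_⟩
      rw [hb] at h3
      cases h3
    · exact ⟨by omega, fun _ => rfl⟩
  cases h with
  | core z =>
    have hlev : lev N c u (GH.core z : GH V Q (Kd N Λ B FB)) = c.G.dist u z := rfl
    have hpos : b = true → c.G.dist u z ≠ 0 := fun hb => (h1 hb).1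
    have hlt : dep N b - c.G.dist u z < 2 * N := by
      cases b with
      | true =>
        have := hpos rfl
        omega
      | false =>
        have := hd.2 rfl
        omega
    refine rgOf hD hp hc hs b u _ (up z (dep N b - c.G.dist u z)) (dep N b - c.G.dist u z) r hok
      ⟨hu, ok_up z _ hlt, ?_, ?_, ?_⟩ ?_ ?_ ?_
    · rw [lev_up]
      omega
    · intro _ l
      unfold up
      split_ifs <;> exact nofun
    · intro _ q j _
      unfold up
      split_ifs <;> exact nofun
    · exact it_up b u z _ 0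
    · rw [lev_up]
      omega
    · omega
  | gho q j =>
    have hlev : lev N c u (GH.gho q j : GH V Q (Kd N Λ B FB)) = c.G.dist u (c.ow q) + j := rfl
    obtain ⟨hj1, hj2⟩ : 1 ≤ j ∧ j ≤ 2 * N := hG
    have hug : (ug c q (dep N b - c.G.dist u (c.ow q)) : GH V Q (Kd N Λ B FB)) =
        .gho q (dep N b - c.G.dist u (c.ow q)) := by
      unfold ug
      rw [if_neg (by omega)]
    refine rgOf hD hp hc hs b u _ (ug c q (dep N b - c.G.dist u (c.ow q)))
      (dep N b - c.G.dist u (c.ow q) - j) r hok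
      ⟨hu, ok_ug q _ (by omega), ?_, ?_, ?_⟩ ?_ ?_ ?_
    · rw [lev_ug]
      omega
    · intro _ l
      rw [hug]
      exact nofun
    · intro hb q' j' hq' h3
      rw [hug] at h3
      have h4 : q = q' := by injection h3
      exact h2 hb q j (by rw [h4]; exact hq') rfl
    · have h3 : dep N b - c.G.dist u (c.ow q) = (dep N b - c.G.dist u (c.ow q) - j) + j := by
        omega
      have h4 := it_ug (N := N) (e := e) (c := c) (s := s) b u q
        (dep N b - c.G.dist u (c.ow q) - j) j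
      rw [← h3] at h4
      rw [h4]
      unfold ug
      rw [if_neg (by omega)]
    · rw [lev_ug]
      omega
    · omega
  | tru z j =>
    have hlev : lev N c u (GH.tru z j : GH V Q (Kd N Λ B FB)) = c.G.dist u z + j := rfl
    obtain ⟨hj1, hj2⟩ : 1 ≤ j ∧ j < 2 * N := hG
    have hlt : dep N b - c.G.dist u z < 2 * N := by
      cases b with
      | true =>
        have h3 : c.G.dist u z ≠ 0 := by
          intro h3
          rw [hc.conn.dist_eq_zero_iff] at h3
          subst h3
          exact (h1 rfl).2.1 j rfl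
        omega
      | false =>
        have := hd.2 rfl
        omega
    have hup : (up z (dep N b - c.G.dist u z) : GH V Q (Kd N Λ B FB)) =
        .tru z (dep N b - c.G.dist u z) := by
      unfold up
      rw [if_neg (by omega)]
    refine rgOf hD hp hc hs b u _ (up z (dep N b - c.G.dist u z))
      (dep N b - c.G.dist u z - j) r hok
      ⟨hu, ok_up z _ hlt, ?_, ?_, ?_⟩ ?_ ?_ ?_
    · rw [lev_up]
      omega
    · intro _ l
      rw [hup]
      exact nofun
    · intro _ q j _
      rw [hup]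
      exact nofun
    · have h3 : dep N b - c.G.dist u z = (dep N b - c.G.dist u z - j) + j := by omega
      have h4 := it_up (N := N) (e := e) (c := c) (s := s) b u z
        (dep N b - c.G.dist u z - j) j
      rw [← h3] at h4
      rw [h4]
      unfold up
      rw [if_neg (by omega)]
    · rw [lev_up]
      omega
    · omega
  | fan z l =>
    exfalso
    have hlev : lev N c u (GH.fan z l : GH V Q (Kd N Λ B FB)) = c.G.dist u z + 2 * N := rfl
    cases b with
    | true =>
      have h3 : c.G.dist u z = 0 := by omega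
      rw [hc.conn.dist_eq_zero_iff] at h3
      subst h3
      exact (h1 rfl).2.2 l rfl
    | false =>
      have := hd.2 rfl
      omega

private theorem depT : dep N true = 2 * N := rfl

private theorem depF : dep N false = 2 * N - 1 := rfl

end gen

private theorem clsFree {N e : ℕ} {c : Core V Q Λ B FB} {s : Ch V Q} (hT : StTok)
    (hD : StTdist) (hp : Par N e) (hc : CoreAx N e c)
    (hs : ChAx N c s) (t : TH V Q (Kd N Λ B FB)) (_ : okT N e c s t)
    (h : t = .rt ∨ (∃ u, t = .nat true u (.core u)) ∨ (∃ u j, t = .nat true u (.tru u j)) ∨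
      (∃ u l, t = .nat true u (.fan u l)) ∨
      ∃ u q j, c.ow q = u ∧ t = .nat false u (.gho q j)) :
    ¬ Rg N e c s (2 * N) t := by
  rintro ⟨x, υ, hx, hυ, hr⟩
  obtain ⟨hp1, hp2⟩ := id hp
  -- trunks and fans
  have tf : ∀ u (h : GH V Q (Kd N Λ B FB)), x.1 = .nat true u h →
      ((∃ j, h = .tru u j) ∨ ∃ l, h = .fan u l) → False := by
    intro u h hx hh
    obtain ⟨υ', h', h1, h2, h3⟩ := toPiece hT hD hp hc hs x υ true u h hx hυ (2 * N) hr
    have h4 : okT N e c s (.cap true u h') := h1 ▸ υ'.2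
    have h5 := lowO hT hD hp hc hs x υ' true u h h'
      (fun g => (∃ j, g = .tru u j) ∨ ∃ l, g = .fan u l) hx h1 (2 * N) hh ?_ ?_ ?_ h3
    · rw [depT] at h5
      omega
    · rintro (⟨j, rfl⟩ | ⟨l, rfl⟩)
      · have h6 : lev N c u (GH.tru u j : GH V Q (Kd N Λ B FB)) = dep N true := h4.2.2.1
        have h7 : 1 ≤ j ∧ j < 2 * N := h4.2.1
        have h8 : lev N c u (GH.tru u j : GH V Q (Kd N Λ B FB)) = c.G.dist u u + j := rfl
        rw [h8, SimpleGraph.dist_self, depT] at h6
        omega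
      · exact h4.2.2.2.1 rfl l rfl
    · intro g hg
      cases g with
      | core z =>
        exfalso
        rcases pb_coreT (N := N) (e := e) (c := c) (s := s) u z with ⟨q, j, h6⟩ | ⟨w, h6⟩
        · rw [h6] at hg
          rcases hg with ⟨j, h7⟩ | ⟨l, h7⟩ <;> cases h7
        · rw [h6] at hg
          rcases hg with ⟨j, h7⟩ | ⟨l, h7⟩ <;> cases h7
      | gho q j =>
        exfalso
        have h6 : pb N e c s true u (GH.gho q j : GH V Q (Kd N Λ B FB)) =
          if j ≤ 1 then .core (c.ow q) else .gho q (j - 1) := rfl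
        rw [h6] at hg
        split_ifs at hg <;> rcases hg with ⟨j, h7⟩ | ⟨l, h7⟩ <;> cases h7
      | tru z j =>
        have h6 : pb N e c s true u (GH.tru z j : GH V Q (Kd N Λ B FB)) =
          if j ≤ 1 then .core z else .tru z (j - 1) := rfl
        rw [h6] at hg
        split_ifs at hg
        · rcases hg with ⟨j, h7⟩ | ⟨l, h7⟩ <;> cases h7
        · rcases hg with ⟨j', h7⟩ | ⟨l, h7⟩
          · have h8 : z = u := by injection h7
            rw [h8]
            exact Or.inl ⟨_, rfl⟩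
          · cases h7
      | fan z l =>
        have h6 : pb N e c s true u (GH.fan z l : GH V Q (Kd N Λ B FB)) =
          .tru z (2 * N - 1) := rfl
        rw [h6] at hg
        rcases hg with ⟨j', h7⟩ | ⟨l', h7⟩
        · have h8 : z = u := by injection h7
          rw [h8]
          exact Or.inr ⟨_, rfl⟩
        · cases h7
    · rintro g - (⟨j, rfl⟩ | ⟨l, rfl⟩) hg
      · have h6 : pb N e c s true u (GH.tru u j : GH V Q (Kd N Λ B FB)) =
          if j ≤ 1 then .core u else .tru u (j - 1) := rfl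
        rw [h6]
        split_ifs
        · right
          show c.G.dist u u + 0 = 0
          rw [SimpleGraph.dist_self]
        · exact Or.inl (Or.inl ⟨_, rfl⟩)
      · exact Or.inl (Or.inl ⟨_, rfl⟩)
  rcases h with rfl | ⟨u, rfl⟩ | ⟨u, j, rfl⟩ | ⟨u, l, rfl⟩ | ⟨u, q, j, hq, rfl⟩
  · have h1 := lowpth hT hD hp hc hs x υ (by rw [hx]; rfl) hυ (2 * N) hr
    rw [hx] at h1
    have h2 : tlev N c (TH.rt : TH V Q (Kd N Λ B FB)) = 0 := rfl
    omega
  · have h1 := lowcap hT hD hp hc hs x υ true u _ hx hυ (2 * N) hr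
    have h2 : lev N c u (GH.core u : GH V Q (Kd N Λ B FB)) = 0 := by
      show c.G.dist u u + 0 = 0
      rw [SimpleGraph.dist_self]
    rw [depT] at h1
    omega
  · exact tf u _ hx (Or.inl ⟨j, rfl⟩)
  · exact tf u _ hx (Or.inr ⟨l, rfl⟩)
  · obtain ⟨υ', h', h1, h2, h3⟩ := toPiece hT hD hp hc hs x υ false u _ hx hυ (2 * N) hr
    have h4 : okT N e c s (.cap false u h') := h1 ▸ υ'.2
    have hj : okT N e c s (.nat false u (.gho q j)) := hx ▸ x.2
    have hj1 : 1 ≤ j ∧ j ≤ 2 * N := hj.2.1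
    have h5 := lowO hT hD hp hc hs x υ' false u _ h'
      (fun g => ∃ q j, c.ow q = u ∧ g = .gho q j) hx h1 (2 * N) ⟨q, j, hq, rfl⟩ ?_ ?_ ?_ h3
    · rw [depF] at h5
      have h6 : lev N c u (GH.gho q j : GH V Q (Kd N Λ B FB)) = c.G.dist u (c.ow q) + j := rfl
      omega
    · rintro ⟨q', j', hq', rfl⟩
      exact h4.2.2.2.2 rfl q' j' hq' rfl
    · intro g hg
      cases g with
      | core z =>
        exfalso
        rw [pb_coreF] at hg
        obtain ⟨q, j, h7, h8⟩ := hg
        cases h8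
      | gho q j =>
        have h6 : pb N e c s false u (GH.gho q j : GH V Q (Kd N Λ B FB)) =
          if j ≤ 1 then .core (c.ow q) else .gho q (j - 1) := rfl
        rw [h6] at hg
        obtain ⟨q', j', h7, h8⟩ := hg
        split_ifs at h8
        have h9 : q = q' := by injection h8
        exact ⟨q, j, by rw [h9]; exact h7, rfl⟩
      | tru z j =>
        exfalso
        have h6 : pb N e c s false u (GH.tru z j : GH V Q (Kd N Λ B FB)) =
          if j ≤ 1 then .core z else .tru z (j - 1) := rfl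
        rw [h6] at hg
        obtain ⟨q', j', h7, h8⟩ := hg
        split_ifs at h8
      | fan z l =>
        exfalso
        obtain ⟨q', j', h7, h8⟩ := hg
        have h6 : pb N e c s false u (GH.fan z l : GH V Q (Kd N Λ B FB)) =
          .tru z (2 * N - 1) := rfl
        rw [h6] at h8
        cases h8
    · rintro g - ⟨q', j', h7, rfl⟩ hg
      have h6 : pb N e c s false u (GH.gho q' j' : GH V Q (Kd N Λ B FB)) =
        if j' ≤ 1 then .core (c.ow q') else .gho q' (j' - 1) := rfl
      rw [h6]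
      split_ifs
      · right
        show c.G.dist u (c.ow q') + 0 = 0
        rw [h7, SimpleGraph.dist_self]
      · exact Or.inl ⟨q', _, h7, rfl⟩

private theorem clsRg {N e : ℕ} {c : Core V Q Λ B FB} {s : Ch V Q} (hT : StTok)
    (hD : StTdist) (hp : Par N e) (hc : CoreAx N e c)
    (hs : ChAx N c s) (t : TH V Q (Kd N Λ B FB)) (hok : okT N e c s t)
    (h : (∃ u w, c.G.Adj u w ∧ t = .nat true u (.core w)) ∨
      (∃ u q, c.ow q = u ∧ t = .nat true u (.gho q 1)) ∨
      (∃ u, t = .nat false u (.core u)) ∨ (∃ b u, t = .pth b u (2 * N))) :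
    Rg N e c s (2 * N) t ∧ ¬ Rg N e c s (2 * N - 1) t := by
  obtain ⟨hp1, hp2⟩ := id hp
  rcases h with ⟨u, w, hw, rfl⟩ | ⟨u, q, hq, rfl⟩ | ⟨u, rfl⟩ | ⟨b, u, rfl⟩
  · have h1 : lev N c u (GH.core w : GH V Q (Kd N Λ B FB)) = 1 := by
      show c.G.dist u w + 0 = 1
      rw [SimpleGraph.dist_eq_one_iff_adj.2 hw]
    constructor
    · refine strongAux hD hp hc hs true u _ hok (2 * N) (fun _ => ⟨by omega, ?_, ?_⟩) ?_ ?_
      · exact nofun
      · exact nofun
      · intro h; cases h
      · rw [h1, depT]; omega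
    · rintro ⟨x, υ, hx, hυ, hr⟩
      have h2 := lowcap hT hD hp hc hs x υ true u _ hx hυ (2 * N - 1) hr
      rw [h1, depT] at h2
      omega
  · have h1 : lev N c u (GH.gho q 1 : GH V Q (Kd N Λ B FB)) = 1 := by
      show c.G.dist u (c.ow q) + 1 = 1
      rw [hq, SimpleGraph.dist_self]
    constructor
    · refine strongAux hD hp hc hs true u _ hok (2 * N) (fun _ => ⟨by omega, ?_, ?_⟩) ?_ ?_
      · exact nofun
      · exact nofun
      · intro h; cases h
      · rw [h1, depT]; omega
    · rintro ⟨x, υ, hx, hυ, hr⟩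
      have h2 := lowcap hT hD hp hc hs x υ true u _ hx hυ (2 * N - 1) hr
      rw [h1, depT] at h2
      omega
  · have h1 : lev N c u (GH.core u : GH V Q (Kd N Λ B FB)) = 0 := by
      show c.G.dist u u + 0 = 0
      rw [SimpleGraph.dist_self]
    constructor
    · refine strongAux hD hp hc hs false u _ hok (2 * N) ?_ ?_ ?_
      · intro h; cases h
      · exact nofun
      · rw [h1, depF]; omega
    · rintro ⟨x, υ, hx, hυ, hr⟩
      have h2 := lowcap hT hD hp hc hs x υ false u _ hx hυ (2 * N - 1) hr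
      rw [h1, depF] at h2
      omega
  · constructor
    · exact rgpth hT hD hp hc hs b u (2 * N) hok (2 * N) le_rfl
    · rintro ⟨x, υ, hx, hυ, hr⟩
      have h2 := lowpth hT hD hp hc hs x υ (by rw [hx]; rfl) hυ (2 * N - 1) hr
      rw [hx, pthlev] at h2
      omega

private theorem clsStrong {N e : ℕ} {c : Core V Q Λ B FB} {s : Ch V Q}
    (hD : StTdist) (hp : Par N e) (hc : CoreAx N e c)
    (hs : ChAx N c s) (b : Bool) (u : V) (h : GH V Q (Kd N Λ B FB))
    (hok : okT N e c s (.nat b u h))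
    (h0 : (b = true ∧ 2 ≤ lev N c u h ∧ (∀ j, h ≠ .tru u j) ∧ (∀ l, h ≠ .fan u l)) ∨
      (b = false ∧ 1 ≤ lev N c u h ∧ ∀ q j, c.ow q = u → h ≠ .gho q j)) :
    Rg N e c s (2 * N - 1) (.nat b u h) := by
  obtain ⟨hp1, hp2⟩ := id hp
  rcases h0 with ⟨rfl, h1, h2, h3⟩ | ⟨rfl, h1, h2⟩
  · refine strongAux hD hp hc hs true u h hok (2 * N - 1) (fun _ => ⟨by omega, h2, h3⟩) ?_ ?_
    · intro h; cases h
    · rw [depT]; omega
  · refine strongAux hD hp hc hs false u h hok (2 * N - 1) ?_ (fun _ => h2) ?_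
    · intro h; cases h
    · rw [depF]; omega

private theorem clsCls {N e : ℕ} {c : Core V Q Λ B FB} {s : Ch V Q} (hT : StTok)
    (hD : StTdist) (hp : Par N e) (hc : CoreAx N e c)
    (hs : ChAx N c s) (t : TH V Q (Kd N Λ B FB)) (hok : okT N e c s t) :
    Rg N e c s (2 * N - 1) t ∨
    (∃ u w, c.G.Adj u w ∧ t = .nat true u (.core w)) ∨
    (∃ u q, c.ow q = u ∧ t = .nat true u (.gho q 1)) ∨
    (∃ u, t = .nat false u (.core u)) ∨
    (∃ b u, t = .pth b u (2 * N)) ∨
    t = .rt ∨ (∃ u, t = .nat true u (.core u)) ∨ (∃ u j, t = .nat true u (.tru u j)) ∨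
    (∃ u l, t = .nat true u (.fan u l)) ∨
      ∃ u q j, c.ow q = u ∧ t = .nat false u (.gho q j) := by
  obtain ⟨hp1, hp2⟩ := id hp
  cases t with
  | nat b u h =>
    cases b with
    | true =>
      by_cases h1 : ∃ j, h = .tru u j
      · obtain ⟨j, rfl⟩ := h1
        exact Or.inr (Or.inr (Or.inr (Or.inr (Or.inr (Or.inr (Or.inr (Or.inl ⟨u, j, rfl⟩)))))))
      by_cases h2 : ∃ l, h = .fan u l
      · obtain ⟨l, rfl⟩ := h2
        exact Or.inr (Or.inr (Or.inr (Or.inr (Or.inr (Or.inr (Or.inr (Or.inr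
          (Or.inl ⟨u, l, rfl⟩))))))))
      by_cases h3 : 2 ≤ lev N c u h
      · exact Or.inl (clsStrong hD hp hc hs true u h hok (Or.inl ⟨rfl, h3,
          fun j h4 => h1 ⟨j, h4⟩, fun l h4 => h2 ⟨l, h4⟩⟩))
      by_cases h4 : lev N c u h = 0
      · rcases hT.zero N e c s hp hc hs _ hok h4 with h5 | ⟨b', u', -, h5⟩
        · cases h5
        · have h6 : u = u' := by injection h5
          have h7 : h = .core u' := by injection h5
          subst h6
          subst h7
          exact Or.inr (Or.inr (Or.inr (Or.inr (Or.inr (Or.inr (Or.inl ⟨u, rfl⟩))))))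
      have h5 : lev N c u h = 1 := by omega
      cases h with
      | core z =>
        have h6 : c.G.dist u z = 1 := h5
        rw [SimpleGraph.dist_eq_one_iff_adj] at h6
        exact Or.inr (Or.inl ⟨u, z, h6, rfl⟩)
      | gho q j =>
        have h6 : c.G.dist u (c.ow q) + j = 1 := h5
        have h7 : 1 ≤ j ∧ j ≤ 2 * N := hok.2.1
        have h8 : c.G.dist u (c.ow q) = 0 := by omega
        rw [hc.conn.dist_eq_zero_iff] at h8
        have h9 : j = 1 := by omega
        subst h9
        exact Or.inr (Or.inr (Or.inl ⟨u, q, h8.symm, rfl⟩))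
      | tru z j =>
        exfalso
        have h6 : c.G.dist u z + j = 1 := h5
        have h7 : 1 ≤ j ∧ j < 2 * N := hok.2.1
        have h8 : c.G.dist u z = 0 := by omega
        rw [hc.conn.dist_eq_zero_iff] at h8
        exact h1 ⟨j, by rw [h8]⟩
      | fan z l =>
        exfalso
        have h6 : c.G.dist u z + 2 * N = 1 := h5
        omega
    | false =>
      by_cases h1 : ∃ q j, c.ow q = u ∧ h = .gho q j
      · obtain ⟨q, j, hq, rfl⟩ := h1
        exact Or.inr (Or.inr (Or.inr (Or.inr (Or.inr (Or.inr (Or.inr (Or.inr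
          (Or.inr ⟨u, q, j, hq, rfl⟩))))))))
      by_cases h4 : lev N c u h = 0
      · rcases hT.zero N e c s hp hc hs _ hok h4 with h5 | ⟨b', u', -, h5⟩
        · cases h5
        · have h6 : u = u' := by injection h5
          have h7 : h = .core u' := by injection h5
          subst h6
          subst h7
          exact Or.inr (Or.inr (Or.inr (Or.inl ⟨u, rfl⟩)))
      · exact Or.inl (clsStrong hD hp hc hs false u h hok (Or.inr ⟨rfl, by omega,
          fun q j hq h5 => h1 ⟨q, j, hq, h5⟩⟩))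
  | cap b u h =>
    left
    exact ⟨tv _ hok, tv _ hok, rfl, ⟨b, u, h, rfl⟩, self_le _ _⟩
  | pth b u j =>
    obtain ⟨hu, hj1, hj2⟩ := id hok
    by_cases hj : j = 2 * N
    · subst hj
      exact Or.inr (Or.inr (Or.inr (Or.inr (Or.inl ⟨b, u, rfl⟩))))
    · exact Or.inl (rgpth hT hD hp hc hs b u j hok (2 * N - 1) (by omega))
  | rt => exact Or.inr (Or.inr (Or.inr (Or.inr (Or.inr (Or.inl rfl)))))

theorem pCls : StTok → StTdist → StCls := by
  intro hT hD
  refine ⟨?_, ?_, ?_, ?_⟩
  · intro V Q Λ B FB N e c s hp hc hs t hok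
    exact clsCls hT hD hp hc hs t hok
  · intro V Q Λ B FB N e c s hp hc hs t hok h
    exact clsRg hT hD hp hc hs t hok h
  · intro V Q Λ B FB N e c s hp hc hs t hok h
    exact clsFree hT hD hp hc hs t hok h
  · intro V Q Λ B FB N e c s hp hc hs b u h hok h0
    exact clsStrong hD hp hc hs b u h hok h0

end Pool.Agent.Helper98.LD
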