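import Pool.Agent.Helper2.LD.St5

/-!
# LD project, module Face: faces through the centre of a piece
-/

set_option autoImplicit false

namespace Pool.Agent.Helper98.LD

open Pool.Agent.Helper2.LD

variable {V Q Λ B FB : Type}

section core

variable {N e : ℕ} {c : Core V Q Λ B FB}

private theorem dist_of_edist (hc : CoreAx N e c) {x y : V} {n : ℕ}
    (h : c.G.edist x y = (n : ℕ∞)) : c.G.dist x y = n := by
  have h1 := (hc.conn.preconnected x y).coe_dist_eq_edist
  rw [h] at h1
  exact_mod_cast h1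

private theorem isoD (hc : CoreAx N e c) (q : Q) (j : ℕ) (hj : j ≤ 2 * e) :
    c.G.dist (c.ow q) (c.ow ((c.nx^[j]) q)) = j := dist_of_edist hc (hc.iso q j hj)

private theorem symm_iter (q : Q) (j : ℕ) : (c.nx^[j]) ((c.nx.symm^[j]) q) = q := by
  have h : Function.LeftInverse (c.nx^[j]) (c.nx.symm^[j]) :=
    Function.LeftInverse.iterate (g := c.nx) (f := c.nx.symm) c.nx.apply_symm_apply j
  exact h q

private theorem symm_iter' (q : Q) (j : ℕ) : (c.nx.symm^[j]) ((c.nx^[j]) q) = q := by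
  have h : Function.LeftInverse (c.nx.symm^[j]) (c.nx^[j]) :=
    Function.LeftInverse.iterate (g := c.nx.symm) (f := c.nx) c.nx.symm_apply_apply j
  exact h q

private theorem symm_eq (hc : CoreAx N e c) (q : Q) (j : ℕ) (hj : j ≤ 4 * e) :
    (c.nx.symm^[j]) q = (c.nx^[4 * e - j]) q := by
  have h1 : (c.nx^[j]) ((c.nx^[4 * e - j]) q) = q := by
    rw [← Function.iterate_add_apply]
    have h2 : j + (4 * e - j) = 4 * e := by omega
    rw [h2, hc.per]
  have h2 := symm_iter' (c := c) ((c.nx^[4 * e - j]) q) j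
  rw [h1] at h2
  exact h2

private theorem faT (q : Q) (j : ℕ) : fa c true q j = c.ow ((c.nx^[j]) q) := rfl

private theorem faF (q : Q) (j : ℕ) : fa c false q j = c.ow ((c.nx.symm^[j]) q) := rfl

private theorem fa0 (σ : Bool) (q : Q) : fa c σ q 0 = c.ow q := rfl

private theorem faDist (hc : CoreAx N e c) (σ : Bool) (q : Q) (j : ℕ) (hj : j ≤ 2 * e) :
    c.G.dist (c.ow q) (fa c σ q j) = j := by
  cases σ with
  | true => exact isoD hc q j hj
  | false =>
    have h1 := isoD hc ((c.nx.symm^[j]) q) j hj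
    rw [symm_iter, SimpleGraph.dist_comm] at h1
    exact h1

private theorem faOpp (hc : CoreAx N e c) (σ : Bool) (q : Q) (j : ℕ) (hj : j ≤ 4 * e) :
    fa c (!σ) q (4 * e - j) = fa c σ q j := by
  cases σ with
  | true =>
    show c.ow ((c.nx.symm^[4 * e - j]) q) = c.ow ((c.nx^[j]) q)
    rw [symm_eq hc q (4 * e - j) (by omega)]
    have h2 : 4 * e - (4 * e - j) = j := by omega
    rw [h2]
  | false =>
    show c.ow ((c.nx^[4 * e - j]) q) = c.ow ((c.nx.symm^[j]) q)
    rw [symm_eq hc q j hj]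

private theorem faAdj (hc : CoreAx N e c) (σ : Bool) (q : Q) (j : ℕ) :
    c.G.Adj (fa c σ q j) (fa c σ q (j + 1)) := by
  cases σ with
  | true =>
    rw [faT, faT, Function.iterate_succ_apply']
    exact hc.adj _
  | false =>
    rw [faF, faF, Function.iterate_succ_apply']
    have h1 := hc.adj (c.nx.symm ((c.nx.symm^[j]) q))
    rw [Equiv.apply_symm_apply] at h1
    exact h1.symm

/-- the two directions do not meet before the antipode -/
private theorem faNe (hc : CoreAx N e c) (σ : Bool) (q : Q) (m : ℕ) (h1 : 1 ≤ m)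
    (h2 : m ≤ 2 * e - 1) : fa c σ q m ≠ fa c (!σ) q m := by
  have key : c.ow ((c.nx^[m]) q) ≠ c.ow ((c.nx.symm^[m]) q) := by
    intro h
    by_cases hm : 2 * m ≤ 2 * e
    · have h3 := isoD hc ((c.nx.symm^[m]) q) (2 * m) hm
      have h4 : (c.nx^[2 * m]) ((c.nx.symm^[m]) q) = (c.nx^[m]) q := by
        rw [two_mul, Function.iterate_add_apply, symm_iter]
      rw [h4, h, SimpleGraph.dist_self] at h3
      omega
    · have h3 := isoD hc ((c.nx^[m]) q) (4 * e - 2 * m) (by omega)
      have h4 : (c.nx^[4 * e - 2 * m]) ((c.nx^[m]) q) = (c.nx.symm^[m]) q := by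
        rw [← Function.iterate_add_apply, symm_eq hc q m (by omega)]
        congr 1
        omega
      rw [h4, h, SimpleGraph.dist_self] at h3
      omega
  cases σ with
  | true => exact key
  | false => exact fun h => key h.symm

private theorem faFollow (hc : CoreAx N e c) (σ : Bool) (q : Q) (z : V)
    (h : c.lb (c.ow q) = c.lb z) : ∃ q', c.ow q' = z ∧ c.fl q' = c.fl q ∧
      c.bs (c.lb (fa c σ q' 1)) = c.bs (c.lb (fa c σ q 1)) ∧
      c.bs (c.lb (fa c (!σ) q' 1)) = c.bs (c.lb (fa c (!σ) q 1)) := by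
  obtain ⟨q', h1, h2, h3, h4⟩ := hc.k7 q z h
  cases σ with
  | true => exact ⟨q', h1, h2, h3, h4⟩
  | false => exact ⟨q', h1, h2, h4, h3⟩

end core

section par

variable {N e : ℕ} {c : Core V Q Λ B FB} {s : Ch V Q} {K : Type}

private theorem facePar (hP : StPb) (hp : Par N e) (hc : CoreAx N e c) (hs : ChAx N c s)
    (b : Bool) (q : Q) (σ : Bool) (j : ℕ) (h1 : 1 ≤ j) (h2 : j ≤ 2 * e - 1) :
    pb (K := K) N e c s b (c.ow q) (.core (fa c σ q j)) = .core (fa c σ q (j - 1)) := by
  have h3 := faDist hc σ q j (by omega)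
  have h4 := faDist hc σ q (j - 1) (by omega)
  have h5 := faAdj hc σ q (j - 1)
  have h6 : j - 1 + 1 = j := by omega
  rw [h6] at h5
  exact (hP (K := K) N e c s hp hc hs b (c.ow q)).1 _ _ (by omega) h5.symm (by omega)

private theorem chFace (hP : StPb) (hp : Par N e) (hc : CoreAx N e c) (hs : ChAx N c s)
    (b : Bool) (q : Q) (σ : Bool) (i : ℕ) (hi : i ≤ 2 * e - 1) (k : ℕ) (hk : k ≤ i) :
    (pb (K := K) N e c s b (c.ow q))^[k] (.core (fa c σ q i)) = .core (fa c σ q (i - k)) := by
  induction k with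
  | zero => rfl
  | succ n ih =>
    rw [Function.iterate_succ_apply', ih (by omega),
      facePar hP hp hc hs b q σ (i - n) (by omega) (by omega)]
    congr 2

private theorem pbGho (b : Bool) (u : V) (q : Q) (j : ℕ) :
    pb N e c s b u (GH.gho q j : GH V Q K) = if j ≤ 1 then .core (c.ow q) else .gho q (j - 1) :=
  rfl

private theorem chGho (b : Bool) (u : V) (q : Q) (i k : ℕ) (hk : k < i) :
    (pb (K := K) N e c s b u)^[k] (.gho q i) = .gho q (i - k) := by
  induction k with
  | zero => rfl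
  | succ n ih =>
    rw [Function.iterate_succ_apply', ih (by omega), pbGho, if_neg (by omega)]
    congr 1

private theorem chGho' (b : Bool) (u : V) (q : Q) (i : ℕ) (hi : 1 ≤ i) :
    (pb (K := K) N e c s b u)^[i] (.gho q i) = .core (c.ow q) := by
  obtain ⟨j, rfl⟩ : ∃ j, i = j + 1 := ⟨i - 1, by omega⟩
  rw [Function.iterate_succ_apply', chGho b u q (j + 1) j (by omega), pbGho, if_pos (by omega)]

private theorem chAnti (hP : StPb) (hp : Par N e) (hc : CoreAx N e c) (hs : ChAx N c s)
    (q : Q) (k : ℕ) (h1 : 1 ≤ k) (h2 : k ≤ 2 * e - 1) :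
    (pb (K := K) N e c s true (c.ow q))^[k] (.core (fa c true q (2 * e))) =
      .gho q (2 * e - k) := by
  obtain ⟨j, rfl⟩ : ∃ j, k = j + 1 := ⟨k - 1, by omega⟩
  rw [Function.iterate_succ_apply]
  have h3 : pb (K := K) N e c s true (c.ow q) (.core (fa c true q (2 * e))) =
      .gho q (2 * e - 1) := (hP (K := K) N e c s hp hc hs true (c.ow q)).2.1 q rfl
  rw [h3, chGho true (c.ow q) q (2 * e - 1) j (by omega)]
  congr 1
  omega

end par

section gen

variable {N e : ℕ} {c : Core V Q Λ B FB} {s : Ch V Q}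

private theorem lvl (hT : StTok) (hp : Par N e) (hc : CoreAx N e c) (hs : ChAx N c s) :
    ∀ (i : ℕ) (x : TH V Q (Kd N Λ B FB)), okT N e c s x → i ≤ tlev N c x →
      okT N e c s ((tpar N e c s)^[i] x) ∧ tlev N c ((tpar N e c s)^[i] x) + i = tlev N c x ∧
        pc ((tpar N e c s)^[i] x) = pc x := by
  intro i
  induction i with
  | zero => intro x hx _; exact ⟨hx, rfl, rfl⟩
  | succ n ih =>
    intro x hx hi
    obtain ⟨h1, h2, h3⟩ := hT.ok N e c s hp hc hs x hx (by omega)
    obtain ⟨h4, h5, h6⟩ := ih (tpar N e c s x) h1 (by omega)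
    rw [Function.iterate_succ_apply]
    exact ⟨h4, by omega, h6.trans h3⟩

private theorem it_nat (b : Bool) (u : V) (h : GH V Q (Kd N Λ B FB)) (k : ℕ) :
    (tpar N e c s)^[k] (.nat b u h) = .nat b u ((pb N e c s b u)^[k] h) := by
  induction k generalizing h with
  | zero => rfl
  | succ n ih =>
    rw [Function.iterate_succ_apply, Function.iterate_succ_apply]
    exact ih _

private theorem eq_of {x y : TV N e c s} {D : ℕ} (h1 : (TG N e c s).edist x y ≤ (D : ℕ∞))
    (h2 : ∀ d : ℕ, (TG N e c s).edist x y ≤ (d : ℕ∞) → D ≤ d) :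
    (TG N e c s).edist x y = (D : ℕ∞) := by
  refine le_antisymm h1 ?_
  obtain ⟨m, hm⟩ := ENat.ne_top_iff_exists.1 (ne_top_of_le_ne_top (ENat.natCast_ne_top D) h1)
  rw [← hm]
  exact_mod_cast h2 m (by rw [← hm])

/-- levels of natural hubs -/
private theorem levn (hT : StTok) (hp : Par N e) (hc : CoreAx N e c) (hs : ChAx N c s)
    (b : Bool) (u : V) (h : GH V Q (Kd N Λ B FB)) (hok : okT N e c s (.nat b u h)) (k : ℕ)
    (hk : k ≤ lev N c u h) : lev N c u ((pb N e c s b u)^[k] h) + k = lev N c u h := by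
  have h1 := (lvl hT hp hc hs k (.nat b u h) hok hk).2.1
  rw [it_nat] at h1
  exact h1

private theorem toRoot (hT : StTok) (hp : Par N e) (hc : CoreAx N e c) (hs : ChAx N c s)
    (b : Bool) (u : V) (h : GH V Q (Kd N Λ B FB)) (hok : okT N e c s (.nat b u h)) :
    (pb N e c s b u)^[lev N c u h] h = .core u := by
  have h1 := lvl hT hp hc hs (lev N c u h) (.nat b u h) hok le_rfl
  rw [it_nat] at h1
  obtain ⟨h2, h3, -⟩ := h1
  have h4 : tlev N c (TH.nat b u ((pb N e c s b u)^[lev N c u h] h) : TH V Q (Kd N Λ B FB)) =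
      0 := by
    have h5 : tlev N c (TH.nat b u h : TH V Q (Kd N Λ B FB)) = lev N c u h := rfl
    omega
  rcases hT.zero N e c s hp hc hs _ h2 h4 with h5 | ⟨b', u', -, h5⟩
  · cases h5
  · have h6 : u = u' := by injection h5
    have h7 : (pb N e c s b u)^[lev N c u h] h = .core u' := by injection h5
    rw [h7, h6]

/-- two hubs which only meet at the root -/
private theorem meet (hT : StTok) (hD : StTdist) (hp : Par N e) (hc : CoreAx N e c)
    (hs : ChAx N c s) (x y : TV N e c s) (b : Bool) (u : V) (h h' : GH V Q (Kd N Λ B FB))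
    (hx : x.1 = .nat b u h) (hy : y.1 = .nat b u h')
    (hm : ∀ i j, i < lev N c u h → j < lev N c u h' →
      lev N c u h - i = lev N c u h' - j →
      (pb N e c s b u)^[i] h = (pb N e c s b u)^[j] h' → False) :
    (TG N e c s).edist x y = ((lev N c u h + lev N c u h' : ℕ) : ℕ∞) := by
  have hpc : pc x.1 = pc y.1 := by rw [hx, hy]; rfl
  have okx : okT N e c s (.nat b u h) := hx ▸ x.2
  have oky : okT N e c s (.nat b u h') := hy ▸ y.2
  have lx : tlev N c x.1 = lev N c u h := by rw [hx]; rfl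
  have ly : tlev N c y.1 = lev N c u h' := by rw [hy]; rfl
  refine eq_of ?_ ?_
  · rw [hD.inn N e c s hp hc hs x y hpc]
    refine ⟨lev N c u h, lev N c u h', by rw [lx], by rw [ly], le_rfl, ?_⟩
    rw [hx, hy, it_nat, it_nat, toRoot hT hp hc hs b u h okx, toRoot hT hp hc hs b u h' oky]
  · intro d hd
    obtain ⟨i, j, hi, hj, hij, h1⟩ := (hD.inn N e c s hp hc hs x y hpc d).1 hd
    rw [lx] at hi
    rw [ly] at hj
    rw [hx, hy, it_nat, it_nat] at h1
    have h2 : (pb N e c s b u)^[i] h = (pb N e c s b u)^[j] h' := by injection h1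
    have h3 := levn hT hp hc hs b u h okx i hi
    have h4 := levn hT hp hc hs b u h' oky j hj
    rw [h2] at h3
    by_contra hlt
    exact hm i j (by omega) (by omega) (by omega) h2

/-- a hub and its ancestor -/
private theorem anc (hT : StTok) (hD : StTdist) (hp : Par N e) (hc : CoreAx N e c)
    (hs : ChAx N c s) (x y : TV N e c s) (b : Bool) (u : V) (h h' : GH V Q (Kd N Λ B FB))
    (hx : x.1 = .nat b u h) (hy : y.1 = .nat b u h') (k : ℕ) (hk : k ≤ lev N c u h')
    (he : (pb N e c s b u)^[k] h' = h) :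
    (TG N e c s).edist x y = (k : ℕ∞) := by
  have hpc : pc x.1 = pc y.1 := by rw [hx, hy]; rfl
  have okx : okT N e c s (.nat b u h) := hx ▸ x.2
  have oky : okT N e c s (.nat b u h') := hy ▸ y.2
  have lx : tlev N c x.1 = lev N c u h := by rw [hx]; rfl
  have ly : tlev N c y.1 = lev N c u h' := by rw [hy]; rfl
  have h0 := levn hT hp hc hs b u h' oky k hk
  rw [he] at h0
  refine eq_of ?_ ?_
  · rw [hD.inn N e c s hp hc hs x y hpc]
    refine ⟨0, k, Nat.zero_le _, by rw [ly]; exact hk, by omega, ?_⟩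
    rw [hx, hy, it_nat, it_nat, he]
    rfl
  · intro d hd
    obtain ⟨i, j, hi, hj, hij, h1⟩ := (hD.inn N e c s hp hc hs x y hpc d).1 hd
    rw [lx] at hi
    rw [ly] at hj
    rw [hx, hy, it_nat, it_nat] at h1
    have h2 : (pb N e c s b u)^[i] h = (pb N e c s b u)^[j] h' := by injection h1
    have h3 := levn hT hp hc hs b u h okx i hi
    have h4 := levn hT hp hc hs b u h' oky j hj
    rw [h2] at h3
    omega

private theorem levFa (hc : CoreAx N e c) (σ : Bool) (q : Q) (i : ℕ) (hi : i ≤ 2 * e) :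
    lev N c (c.ow q) (GH.core (fa c σ q i) : GH V Q (Kd N Λ B FB)) = i :=
  faDist hc σ q i hi

private theorem levGho (u : V) (q : Q) (j : ℕ) :
    lev N c u (GH.gho q j : GH V Q (Kd N Λ B FB)) = c.G.dist u (c.ow q) + j := rfl

private theorem fSame (hT : StTok) (hP : StPb) (hD : StTdist) (hp : Par N e)
    (hc : CoreAx N e c) (hs : ChAx N c s) (q : Q) (σ : Bool) (i j : ℕ) (x y : TV N e c s)
    (hx : x.1 = .nat true (c.ow q) (.core (fa c σ q i)))
    (hy : y.1 = .nat true (c.ow q) (.core (fa c σ q j)))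
    (hi : i ≤ 2 * e - 1) (hj : j ≤ 2 * e - 1) :
    (TG N e c s).edist x y = ((i - j + (j - i) : ℕ) : ℕ∞) := by
  have key : ∀ (i j : ℕ) (x y : TV N e c s),
      x.1 = .nat true (c.ow q) (.core (fa c σ q i)) →
      y.1 = .nat true (c.ow q) (.core (fa c σ q j)) → i ≤ 2 * e - 1 → j ≤ 2 * e - 1 → i ≤ j →
      (TG N e c s).edist x y = ((j - i : ℕ) : ℕ∞) := by
    intro i j x y hx hy hi hj hij
    refine anc hT hD hp hc hs x y true (c.ow q) _ _ hx hy (j - i) ?_ ?_
    · rw [levFa hc σ q j (by omega)]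
      omega
    · rw [chFace hP hp hc hs true q σ j hj (j - i) (by omega)]
      congr 2
      omega
  rcases le_total i j with h | h
  · rw [key i j x y hx hy hi hj h]
    congr 1
    omega
  · rw [SimpleGraph.edist_comm, key j i y x hy hx hj hi h]
    congr 1
    omega

private theorem fOpp (hT : StTok) (hP : StPb) (hD : StTdist) (hp : Par N e)
    (hc : CoreAx N e c) (hs : ChAx N c s) (q : Q) (σ : Bool) (i j : ℕ) (x y : TV N e c s)
    (hx : x.1 = .nat true (c.ow q) (.core (fa c σ q i)))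
    (hy : y.1 = .nat true (c.ow q) (.core (fa c (!σ) q j)))
    (hi : i ≤ 2 * e - 1) (hj : j ≤ 2 * e - 1) :
    (TG N e c s).edist x y = ((i + j : ℕ) : ℕ∞) := by
  have h1 := levFa (N := N) (Λ := Λ) (B := B) (FB := FB) hc σ q i (by omega)
  have h2 := levFa (N := N) (Λ := Λ) (B := B) (FB := FB) hc (!σ) q j (by omega)
  have h3 := meet hT hD hp hc hs x y true (c.ow q) _ _ hx hy ?_
  · rw [h1, h2] at h3
    exact h3
  · rw [h1, h2]
    intro i' j' hi' hj' hl he
    rw [chFace hP hp hc hs true q σ i hi i' hi'.le,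
      chFace hP hp hc hs true q (!σ) j hj j' hj'.le] at he
    have h4 : fa c σ q (i - i') = fa c (!σ) q (j - j') := by injection he
    rw [← hl] at h4
    exact faNe hc σ q (i - i') (by omega) (by omega) h4

private theorem fAnti (hT : StTok) (hP : StPb) (hD : StTdist) (hp : Par N e)
    (hc : CoreAx N e c) (hs : ChAx N c s) (q : Q) (σ : Bool) (i : ℕ) (x y : TV N e c s)
    (hx : x.1 = .nat true (c.ow q) (.core (fa c σ q i)))
    (hy : y.1 = .nat true (c.ow q) (.core (fa c true q (2 * e))))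
    (hi : i ≤ 2 * e - 1) :
    (TG N e c s).edist x y = ((i + 2 * e : ℕ) : ℕ∞) := by
  have he20 := hp.2
  have h1 := levFa (N := N) (Λ := Λ) (B := B) (FB := FB) hc σ q i (by omega)
  have h2 := levFa (N := N) (Λ := Λ) (B := B) (FB := FB) hc true q (2 * e) le_rfl
  have h3 := meet hT hD hp hc hs x y true (c.ow q) _ _ hx hy ?_
  · rw [h1, h2] at h3
    exact h3
  · rw [h1, h2]
    intro i' j' hi' hj' hl he
    rw [chFace hP hp hc hs true q σ i hi i' hi'.le,
      chAnti hP hp hc hs q j' (by omega) (by omega)] at he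
    cases he

private theorem fGho (hT : StTok) (hP : StPb) (hD : StTdist) (hp : Par N e)
    (hc : CoreAx N e c) (hs : ChAx N c s) (q q' : Q) (i : ℕ) (x y : TV N e c s)
    (hq : c.ow q' = c.ow q) (hx : x.1 = .nat true (c.ow q) (.gho q' i))
    (hy : y.1 = .nat true (c.ow q) (.core (fa c true q (2 * e)))) (h0 : 1 ≤ i)
    (hi : i ≤ 2 * e - 1) :
    (q' = q → (TG N e c s).edist x y = ((2 * e - i : ℕ) : ℕ∞)) ∧
    (q' ≠ q → (TG N e c s).edist x y = ((i + 2 * e : ℕ) : ℕ∞)) := by
  have he20 := hp.2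
  have h2 := levFa (N := N) (Λ := Λ) (B := B) (FB := FB) hc true q (2 * e) le_rfl
  constructor
  · rintro rfl
    refine anc hT hD hp hc hs x y true (c.ow q') _ _ hx hy (2 * e - i) ?_ ?_
    · rw [h2]
      omega
    · rw [chAnti hP hp hc hs q' (2 * e - i) (by omega) (by omega)]
      congr 1
      omega
  · intro hne
    have h1 : lev N c (c.ow q) (GH.gho q' i : GH V Q (Kd N Λ B FB)) = i := by
      rw [levGho, hq, SimpleGraph.dist_self, zero_add]
    have h3 := meet hT hD hp hc hs x y true (c.ow q) _ _ hx hy ?_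
    · rw [h1, h2] at h3
      exact h3
    · rw [h1, h2]
      intro i' j' hi' hj' hl he
      rw [chGho true (c.ow q) q' i i' hi',
        chAnti hP hp hc hs q j' (by omega) (by omega)] at he
      have h4 : q' = q := by injection he
      exact hne h4

private theorem fGho' (hT : StTok) (hP : StPb) (hD : StTdist) (hp : Par N e)
    (hc : CoreAx N e c) (hs : ChAx N c s) (q q' : Q) (σ : Bool) (i j : ℕ) (x y : TV N e c s)
    (hq : c.ow q' = fa c (!σ) q 1) (hx : x.1 = .nat true (c.ow q) (.gho q' i))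
    (hy : y.1 = .nat true (c.ow q) (.core (fa c σ q j))) (h0 : 1 ≤ i)
    (hj : j ≤ 2 * e - 1) :
    (TG N e c s).edist x y = ((i + 1 + j : ℕ) : ℕ∞) := by
  have he20 := hp.2
  have h1 : lev N c (c.ow q) (GH.gho q' i : GH V Q (Kd N Λ B FB)) = i + 1 := by
    rw [levGho, hq, faDist hc (!σ) q 1 (by omega)]
    omega
  have h2 := levFa (N := N) (Λ := Λ) (B := B) (FB := FB) hc σ q j (by omega)
  have h3 := meet hT hD hp hc hs x y true (c.ow q) _ _ hx hy ?_
  · rw [h1, h2] at h3
    exact h3
  · rw [h1, h2]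
    intro i' j' hi' hj' hl he
    rw [chFace hP hp hc hs true q σ j hj j' hj'.le] at he
    by_cases hii : i' < i
    · rw [chGho true (c.ow q) q' i i' hii] at he
      cases he
    · have h4 : i' = i := by omega
      subst h4
      rw [chGho' true (c.ow q) q' i' h0] at he
      have h5 : c.ow q' = fa c σ q (j - j') := by injection he
      have h6 : j - j' = 1 := by omega
      rw [h6, hq] at h5
      exact faNe hc σ q 1 le_rfl (by omega) h5.symm

end gen

theorem pFace : StTok → StPb → StTdist → StFace := by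
  intro hT hP hD
  refine ⟨?_, ?_, ?_, ?_, ?_, ?_, ?_, ?_⟩
  · intro V Q Λ B FB N e c hp hc q σ
    refine ⟨fun j hj => faDist hc σ q j hj, ?_, rfl, fun j hj => faOpp hc σ q j hj,
      fun j => faAdj hc σ q j⟩
    have h1 := faOpp hc σ q (2 * e) (by omega)
    have h2 : 4 * e - 2 * e = 2 * e := by omega
    rw [h2] at h1
    exact h1.symm
  · intro V Q Λ B FB K N e c s hp hc hs b q σ j h1 h2
    exact facePar hP hp hc hs b q σ j h1 h2
  · intro V Q Λ B FB N e c _ hc σ q z h
    exact faFollow hc σ q z h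
  · intro V Q Λ B FB N e c s hp hc hs q σ i j x y hx hy hi hj
    exact fSame hT hP hD hp hc hs q σ i j x y hx hy hi hj
  · intro V Q Λ B FB N e c s hp hc hs q σ i j x y hx hy hi hj
    exact fOpp hT hP hD hp hc hs q σ i j x y hx hy hi hj
  · intro V Q Λ B FB N e c s hp hc hs q σ i x y hx hy hi
    exact fAnti hT hP hD hp hc hs q σ i x y hx hy hi
  · intro V Q Λ B FB N e c s hp hc hs q q' i x y hq hx hy h0 hi
    exact fGho hT hP hD hp hc hs q q' i x y hq hx hy h0 hi
  · intro V Q Λ B FB N e c s hp hc hs q q' σ i j x y hq hx hy h0 _ hj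
    exact fGho' hT hP hD hp hc hs q q' σ i j x y hq hx hy h0 hj

end Pool.Agent.Helper98.LD
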