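import Pool.Agent.Helper2.LD.St4

/-!
# LD project: Hyp, the standing assumptions for the tree skeleton and its union with `G'`
-/

set_option autoImplicit false

namespace Pool.Agent.Helper98.LD

open Pool.Agent.Helper2.LD

/-- Transport of cycles contained in a set. -/
private theorem hy_cyc {W W' : Type} {G : SimpleGraph W} {G' : SimpleGraph W'} (s : Set W)
    (f : s → W') (hf : Function.Injective f)
    (hadj : ∀ a b : s, G.Adj a.1 b.1 → G'.Adj (f a) (f b)) (v : W) (c : G.Walk v v)
    (hc : c.IsCycle) (hs : ∀ x ∈ c.support, x ∈ s) :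
    ∃ (v' : W') (c' : G'.Walk v' v'), c'.IsCycle ∧ c'.length = c.length := by
  have h1 : (c.induce s hs).map (SimpleGraph.Embedding.induce s).toHom = c :=
    SimpleGraph.Walk.map_induce c hs
  have h2 : (c.induce s hs).IsCycle := by
    refine SimpleGraph.Walk.IsCycle.of_map (f := (SimpleGraph.Embedding.induce s).toHom) ?_
    rw [h1]
    exact hc
  have h3 : (c.induce s hs).length = c.length := by
    have := congrArg SimpleGraph.Walk.length h1
    rwa [SimpleGraph.Walk.length_map] at this
  let F : G.induce s →g G' := ⟨f, fun {a b} h => hadj a b h⟩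
  refine ⟨_, (c.induce s hs).map F, ?_, ?_⟩
  · exact (SimpleGraph.Walk.isCycle_map_iff_of_injective (f := F) hf).2 h2
  · rw [SimpleGraph.Walk.length_map, h3]

section

variable {V Q Λ B FB : Type}

private theorem hy_dp {K : Type} (N : ℕ) (c : Core V Q Λ B FB) (h : GH V Q K)
    (hN : 1 ≤ N) (h0 : h.ht N ≠ 0) :
    (h.dp N c).own c = h.own c ∧ (h.dp N c).ht N + 1 = h.ht N := by
  cases h with
  | core x => exact absurd rfl h0
  | gho q j =>
    simp only [GH.ht] at h0
    simp only [GH.dp]
    split_ifs with h1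
    · simp only [GH.own, GH.ht, true_and]
      omega
    · simp only [GH.own, GH.ht, true_and]
      omega
  | tru x j =>
    simp only [GH.ht] at h0
    simp only [GH.dp]
    split_ifs with h1
    · simp only [GH.own, GH.ht, true_and]
      omega
    · simp only [GH.own, GH.ht, true_and]
      omega
  | fan x l =>
    simp only [GH.dp, GH.own, GH.ht, true_and]
    omega

private theorem hy_core {N e : ℕ} {c : Core V Q Λ B FB} (hN : 1 ≤ N) (h : GV N e c)
    (h0 : h.1.ht N = 0) : ∃ x, h.1 = .core x := by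
  obtain ⟨h, hh⟩ := h
  cases h with
  | core x => exact ⟨x, rfl⟩
  | gho q j =>
    simp only [GH.ht] at h0
    have := hh.1
    omega
  | tru x j =>
    simp only [GH.ht] at h0
    have := hh.1
    omega
  | fan x l =>
    simp only [GH.ht] at h0
    omega

/-- Bipartition of `G'`. -/
private theorem hy_gbip (N e : ℕ) (c : Core V Q Λ B FB) (hN : 1 ≤ N) (hb : Bip c.G) :
    Bip (GG N e c) := by
  obtain ⟨col, hcol⟩ := hb
  refine ⟨fun h => xor (col (h.1.own c)) (decide (h.1.ht N % 2 = 1)), ?_⟩
  have key : ∀ a b : GH V Q (Kd N Λ B FB), a.ht N ≠ 0 → b = a.dp N c →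
      xor (col (a.own c)) (decide (a.ht N % 2 = 1)) ≠
        xor (col (b.own c)) (decide (b.ht N % 2 = 1)) := by
    intro a b h0 hb
    obtain ⟨h1, h2⟩ := hy_dp N c a hN h0
    subst hb
    rw [h1]
    intro h3
    have hxor : ∀ a b c : Bool, xor a b = xor a c → b = c := by decide
    have h4 : decide (a.ht N % 2 = 1) = decide ((a.dp N c).ht N % 2 = 1) :=
      hxor _ _ _ h3
    rw [decide_eq_decide] at h4
    omega
  rintro ⟨h, hh⟩ ⟨h', hh'⟩ ⟨-, ⟨x, y, h1, h2, h3⟩ | ⟨h1, h2⟩ | ⟨h1, h2⟩⟩
  · change h = _ at h1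
    change h' = _ at h2
    subst h1
    subst h2
    have := hcol x y h3
    simpa [GH.own, GH.ht] using this
  · exact key _ _ h1 h2
  · exact (key _ _ h1 h2).symm

/-- Cycles of `G'` are in the core. -/
private theorem hy_gcyc (N e : ℕ) (c : Core V Q Λ B FB) (hN : 1 ≤ N) (v : GV N e c)
    (w : (GG N e c).Walk v v) (hw : w.IsCycle) : ∀ h ∈ w.support, h.1.ht N = 0 := by
  -- a vertex of maximal height
  obtain ⟨m, hm, hmax⟩ : ∃ m ∈ w.support, ∀ h ∈ w.support, h.1.ht N ≤ m.1.ht N := by
    classical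
    have hne : w.support.toFinset.Nonempty := ⟨v, by simp⟩
    obtain ⟨m, hm, hmax⟩ := Finset.exists_max_image w.support.toFinset (fun h => h.1.ht N) hne
    exact ⟨m, by simpa using hm, fun h hh => hmax h (by simpa using hh)⟩
  have h0 : m.1.ht N = 0 := by
    by_contra h0
    classical
    have hc := hw.rotate hm
    have hnn : ¬ (w.rotate m hm).Nil := hc.not_nil
    have key : ∀ z : GV N e c, z ∈ w.support → (GG N e c).Adj m z → z.1 = m.1.dp N c := by
      rintro z hz ⟨-, ⟨x, y, h1, h2, h3⟩ | ⟨h1, h2⟩ | ⟨h1, h2⟩⟩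
      · exfalso
        rw [h1] at h0
        exact h0 rfl
      · exact h2
      · exfalso
        have h3 := hy_dp N c z.1 hN h1
        have h4 := hmax z hz
        rw [← h2] at h3
        omega
    have h1 : (GG N e c).Adj m (w.rotate m hm).snd := SimpleGraph.Walk.adj_snd hnn
    have h2 : (GG N e c).Adj (w.rotate m hm).penultimate m :=
      SimpleGraph.Walk.adj_penultimate hnn
    have h3 : (w.rotate m hm).snd ∈ w.support := by
      rw [← SimpleGraph.Walk.mem_support_rotate_iff w m hm]
      exact SimpleGraph.Walk.getVert_mem_support _ _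
    have h4 : (w.rotate m hm).penultimate ∈ w.support := by
      rw [← SimpleGraph.Walk.mem_support_rotate_iff w m hm]
      exact SimpleGraph.Walk.getVert_mem_support _ _
    have h5 := key _ h3 h1
    have h6 := key _ h4 h2.symm
    exact hc.snd_ne_penultimate (Subtype.ext (h5.trans h6.symm))
  intro h hh
  have := hmax h hh
  omega

private theorem hy_gno (N e : ℕ) (c : Core V Q Λ B FB) (hP : Par N e)
    (hg : NoCyc c.G (4 * e - 1)) : NoCyc (GG N e c) (3 * N) := by
  obtain ⟨hP1, hP2⟩ := hP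
  have hN : 1 ≤ N := by omega
  intro v w hw
  have h0 := hy_gcyc N e c hN v w hw
  have hex : ∀ h : {h : GV N e c | h.1.ht N = 0}, ∃ x, h.1.1 = .core x :=
    fun h => hy_core hN h.1 h.2
  choose f hf using hex
  obtain ⟨v', c', h1, h2⟩ := hy_cyc (G' := c.G) {h : GV N e c | h.1.ht N = 0} f (by
      intro a b hab
      have h1 := hf a
      have h2 := hf b
      rw [hab, ← h2] at h1
      exact Subtype.ext (Subtype.ext h1)) (by
      rintro a b ⟨-, ⟨x, y, h1, h2, h3⟩ | ⟨h1, h2⟩ | ⟨h1, h2⟩⟩
      · rw [hf a] at h1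
        rw [hf b] at h2
        simp only [GH.core.injEq] at h1 h2
        rw [h1, h2]
        exact h3
      · exact absurd a.2 h1
      · exact absurd b.2 h1) v w hw h0
  have h3 := hg v' c' h1
  omega

private theorem hy_rp {N : ℕ} {c : Core V Q Λ B FB} {s : Ch V Q} (hs : ChAx N c s) (x : V) :
    s.rp (s.rp x) = s.rp x := hs.rp2 _ _ (hs.rp1 x)

private theorem hy_many (N e : ℕ) (c : Core V Q Λ B FB) (s : Ch V Q) (hs : ChAx N c s)
    (x : V) (n : ℕ) (hn : n < 2 * N) : Many (TV N e c s) n := by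
  intro F hF
  by_contra hne
  push Not at hne
  let f : Fin (2 * N) → TV N e c s := fun j =>
    ⟨.pth true (s.rp x) (j + 1), hy_rp hs x, by omega, by omega⟩
  have hf : Function.Injective f := by
    intro a b hab
    have h1 := congrArg Subtype.val hab
    simp only [f, TH.pth.injEq, true_and] at h1
    exact Fin.ext (by omega)
  have h1 : (Finset.univ.map ⟨f, hf⟩).card ≤ F.card :=
    Finset.card_le_card (fun y _ => hne y)
  rw [Finset.card_map, Finset.card_univ, Fintype.card_fin] at h1
  omega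

private theorem hy_tbip {W : Type} {G : SimpleGraph W} (hG : G.IsTree) : Bip G := by
  obtain ⟨u⟩ := hG.connected.nonempty
  refine ⟨fun v => decide (G.dist u v % 2 = 1), ?_⟩
  intro v w hvw h
  rw [decide_eq_decide] at h
  rcases hG.dist_eq_dist_add_one_of_adj u hvw with h1 | h1
  · omega
  · omega

private theorem hy_inl (N e : ℕ) (c : Core V Q Λ B FB) (s : Ch V Q) :
    ∀ (x y : TV N e c s ⊕ GV N e c) (p : (SG N e c s).Walk x y), (∃ a, x = .inl a) →
    ∀ z ∈ p.support, ∃ a, z = .inl a := by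
  intro x y p
  induction p with
  | nil =>
    intro hx z hz
    rw [SimpleGraph.Walk.support_nil, List.mem_singleton] at hz
    rw [hz]
    exact hx
  | @cons x x1 y h p ih =>
    intro hx z hz
    rw [SimpleGraph.Walk.support_cons, List.mem_cons] at hz
    rcases hz with hz | hz
    · rw [hz]
      exact hx
    · refine ih ?_ z hz
      obtain ⟨a, rfl⟩ := hx
      rcases x1 with b | b
      · exact ⟨b, rfl⟩
      · exact h.elim

private theorem hy_inr (N e : ℕ) (c : Core V Q Λ B FB) (s : Ch V Q) :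
    ∀ (x y : TV N e c s ⊕ GV N e c) (p : (SG N e c s).Walk x y), (∃ a, x = .inr a) →
    ∀ z ∈ p.support, ∃ a, z = .inr a := by
  intro x y p
  induction p with
  | nil =>
    intro hx z hz
    rw [SimpleGraph.Walk.support_nil, List.mem_singleton] at hz
    rw [hz]
    exact hx
  | @cons x x1 y h p ih =>
    intro hx z hz
    rw [SimpleGraph.Walk.support_cons, List.mem_cons] at hz
    rcases hz with hz | hz
    · rw [hz]
      exact hx
    · refine ih ?_ z hz
      obtain ⟨a, rfl⟩ := hx
      rcases x1 with b | b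
      · exact h.elim
      · exact ⟨b, rfl⟩

private theorem hy_sbip (N e : ℕ) (c : Core V Q Λ B FB) (s : Ch V Q)
    (h1 : Bip (TG N e c s)) (h2 : Bip (GG N e c)) : Bip (SG N e c s) := by
  obtain ⟨f, hf⟩ := h1
  obtain ⟨g, hg⟩ := h2
  refine ⟨Sum.elim f g, ?_⟩
  rintro (a | a) (b | b) h
  · exact hf a b h
  · exact h.elim
  · exact h.elim
  · exact hg a b h

private theorem hy_sno (N e : ℕ) (c : Core V Q Λ B FB) (s : Ch V Q) (L : ℕ)
    (h1 : NoCyc (TG N e c s) L) (h2 : NoCyc (GG N e c) L) : NoCyc (SG N e c s) L := by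
  intro v w hw
  rcases v with a | a
  · have h3 := hy_inl N e c s _ _ w ⟨a, rfl⟩
    have hex : ∀ z : {z : TV N e c s ⊕ GV N e c | ∃ a, z = .inl a}, ∃ a, z.1 = .inl a :=
      fun z => z.2
    choose f hf using hex
    obtain ⟨v', c', h4, h5⟩ := hy_cyc (G' := TG N e c s)
      {z : TV N e c s ⊕ GV N e c | ∃ a, z = .inl a} f (by
        intro a b hab
        have h1 := hf a
        have h2 := hf b
        rw [hab, ← h2] at h1
        exact Subtype.ext h1) (by
        intro a b hab
        rw [hf a, hf b] at hab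
        exact hab) _ w hw h3
    rw [← h5]
    exact h1 v' c' h4
  · have h3 := hy_inr N e c s _ _ w ⟨a, rfl⟩
    have hex : ∀ z : {z : TV N e c s ⊕ GV N e c | ∃ a, z = .inr a}, ∃ a, z.1 = .inr a :=
      fun z => z.2
    choose f hf using hex
    obtain ⟨v', c', h4, h5⟩ := hy_cyc (G' := GG N e c)
      {z : TV N e c s ⊕ GV N e c | ∃ a, z = .inr a} f (by
        intro a b hab
        have h1 := hf a
        have h2 := hf b
        rw [hab, ← h2] at h1
        exact Subtype.ext h1) (by
        intro a b hab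
        rw [hf a, hf b] at hab
        exact hab) _ w hw h3
    rw [← h5]
    exact h2 v' c' h4

private theorem hy_smany (N e : ℕ) (c : Core V Q Λ B FB) (s : Ch V Q) (n : ℕ)
    (h1 : Many (TV N e c s) n) : Many (TV N e c s ⊕ GV N e c) n := by
  intro F hF
  classical
  obtain ⟨v, hv⟩ := h1 (F.preimage Sum.inl (Sum.inl_injective.injOn)) (by
    refine le_trans ?_ hF
    rw [← Finset.card_image_of_injective _ (Sum.inl_injective (α := TV N e c s) (β := GV N e c))]
    refine Finset.card_le_card ?_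
    intro y hy
    obtain ⟨z, hz, rfl⟩ := Finset.mem_image.1 hy
    exact Finset.mem_preimage.1 hz)
  exact ⟨.inl v, fun h => hv (Finset.mem_preimage.2 h)⟩

end

theorem pHyp (hT : StTtree) (hI : StTinj) : StHyp := by
  intro V Q Λ B FB _ _ _ k c s hk hc hs
  have hk1 : (60 : ℕ) ≤ k := hk
  have hpow : k + 3 ≤ 2 ^ (k - 3) ∧ 64 ≤ 2 ^ (k - 3) := by
    obtain ⟨m, rfl⟩ : ∃ m, k = m + 60 := ⟨k - 60, by omega⟩
    have h1 : m + 60 - 3 = m + 57 := by omega
    rw [h1]
    have h2 : m < 2 ^ m := Nat.lt_two_pow_self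
    have h3 : 2 ^ (m + 57) = 2 ^ m * 2 ^ 57 := by rw [pow_add]
    rw [h3]
    have h4 : (1 : ℕ) ≤ 2 ^ m := Nat.one_le_two_pow
    constructor
    · norm_num
      omega
    · norm_num
      omega
  have hN : NN k = 2 ^ (k - 3) := rfl
  have hPar : Par (NN k) (EE k) := by
    have : EE k = NN k - 4 := rfl
    refine ⟨?_, ?_⟩
    · rw [this, hN]
      omega
    · rw [this, hN]
      omega
  have hTree := hT (NN k) (EE k) c s hPar hc hs
  have hTb := hy_tbip hTree
  have hTn : NoCyc (TG (NN k) (EE k) c s) (3 * NN k) := by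
    intro v w hw
    exact absurd hw (hTree.isAcyclic w)
  have hGb : Bip (GG (NN k) (EE k) c) := hy_gbip _ _ c (by rw [hN]; omega) hc.bip
  have hGn := hy_gno (NN k) (EE k) c hPar hc.girth
  obtain ⟨x⟩ := hc.conn.nonempty
  have hTm : Many (TV (NN k) (EE k) c s) (k + 2) := hy_many _ _ c s hs x (k + 2) (by
    rw [hN]
    omega)
  refine ⟨⟨hTb, hTn, hTm⟩, ⟨hy_sbip _ _ c s hTb hGb, hy_sno _ _ c s _ hTn hGn,
    hy_smany _ _ c s _ hTm⟩, ⟨?_, ?_⟩, ?_⟩
  · intro y
    exact hI.hub (NN k) (EE k) c s hPar hc hs (.inl y)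
  · intro y z hyz h
    exact hI.inj (NN k) (EE k) c s hPar hc hs y z hyz h
  · intro y
    exact hI.hub (NN k) (EE k) c s hPar hc hs y

end Pool.Agent.Helper98.LD
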