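import Pool.Agent.Helper2.LD.St4

/-!
# LD project: Forest, distances in a forest given by levels and parents
-/

set_option autoImplicit false

namespace Pool.Agent.Helper98.LD

open Pool.Agent.Helper2.LD

private theorem fo_lv {X : Type} {G : SimpleGraph X} {lv : X → ℕ} {par : X → X}
    (hF : Forest G lv par) (y : X) : ∀ j, j ≤ lv y → lv (par^[j] y) + j = lv y := by
  intro j
  induction j with
  | zero => intro _; rfl
  | succ j ih =>
    intro hj
    have h1 := ih (by omega)
    have h2 : lv (par^[j] y) ≠ 0 := by omega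
    have h3 := hF.lv _ h2
    rw [Function.iterate_succ_apply']
    omega

private theorem fo_up {X : Type} {G : SimpleGraph X} {lv : X → ℕ} {par : X → X}
    (hF : Forest G lv par) : ∀ (i : ℕ) (x : X), i ≤ lv x → G.edist x (par^[i] x) ≤ (i : ℕ∞) := by
  intro i
  induction i with
  | zero =>
    intro x _
    simp
  | succ i ih =>
    intro x hx
    have h0 : lv x ≠ 0 := by omega
    have h1 := hF.lv x h0
    have h2 : G.Adj x (par x) := (hF.adj x (par x)).2 (Or.inl ⟨h0, rfl⟩)
    have h3 := ih (par x) (by omega)
    rw [Function.iterate_succ_apply]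
    have h4 : G.edist x (par x) ≤ 1 := by
      rw [SimpleGraph.edist_eq_one_iff_adj.2 h2]
    calc G.edist x (par^[i] (par x)) ≤ G.edist x (par x) + G.edist (par x) (par^[i] (par x)) :=
          SimpleGraph.edist_triangle
      _ ≤ 1 + (i : ℕ∞) := add_le_add h4 h3
      _ = ((i + 1 : ℕ) : ℕ∞) := by push_cast; ring

private theorem fo_walk {X : Type} {G : SimpleGraph X} {lv : X → ℕ} {par : X → X}
    (hF : Forest G lv par) : ∀ (x y : X) (p : G.Walk x y),
    ∃ i j, i ≤ lv x ∧ j ≤ lv y ∧ i + j ≤ p.length ∧ par^[i] x = par^[j] y := by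
  intro x y p
  induction p with
  | nil => exact ⟨0, 0, Nat.zero_le _, Nat.zero_le _, le_rfl, rfl⟩
  | @cons x x1 y h p ih =>
    obtain ⟨i, j, h1, h2, h3, h4⟩ := ih
    rcases (hF.adj x x1).1 h with ⟨h5, h6⟩ | ⟨h5, h6⟩
    · have h7 := hF.lv x h5
      subst h6
      refine ⟨i + 1, j, by omega, h2, ?_, ?_⟩
      · rw [SimpleGraph.Walk.length_cons]
        omega
      · rw [Function.iterate_succ_apply, h4]
    · have h7 := hF.lv x1 h5
      cases i with
      | zero =>
        have h8 := fo_lv hF y j h2
        rw [Function.iterate_zero, id_eq] at h4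
        rw [← h4] at h8
        refine ⟨0, j + 1, Nat.zero_le _, by omega, ?_, ?_⟩
        · rw [SimpleGraph.Walk.length_cons]
          omega
        · rw [Function.iterate_succ_apply', ← h4, Function.iterate_zero, id_eq]
          exact h6
      | succ i =>
        refine ⟨i, j, ?_, h2, ?_, ?_⟩
        · rw [h6]
          omega
        · rw [SimpleGraph.Walk.length_cons]
          omega
        · rw [← h4, Function.iterate_succ_apply, h6]

theorem pForest : StForest := by
  intro X G lv par hF x y d
  constructor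
  · intro h
    have h1 : G.edist x y ≠ ⊤ := fun e => by
      rw [e] at h
      exact absurd h (by simp)
    obtain ⟨p, hp⟩ := SimpleGraph.exists_walk_of_edist_ne_top h1
    obtain ⟨i, j, h2, h3, h4, h5⟩ := fo_walk hF x y p
    refine ⟨i, j, h2, h3, ?_, h5⟩
    rw [← hp] at h
    have h6 : p.length ≤ d := by exact_mod_cast h
    omega
  · rintro ⟨i, j, h1, h2, h3, h4⟩
    have h5 := fo_up hF i x h1
    have h6 := fo_up hF j y h2
    rw [h4] at h5
    calc G.edist x y ≤ G.edist x (par^[j] y) + G.edist (par^[j] y) y :=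
          SimpleGraph.edist_triangle
      _ ≤ (i : ℕ∞) + (j : ℕ∞) := add_le_add h5 (by rw [SimpleGraph.edist_comm]; exact h6)
      _ ≤ (d : ℕ∞) := by exact_mod_cast h3

end Pool.Agent.Helper98.LD
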