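import Pool.Agent.Helper2.LD.St5

/-!
# LD project, module Tsee: what one sees in the tree skeleton
-/

set_option autoImplicit false

namespace Pool.Agent.Helper98.LD

open Pool.Agent.Helper2.LD

variable {V Q Λ B FB : Type}

section gen

variable {N e : ℕ} {c : Core V Q Λ B FB} {s : Ch V Q}

private def tv (x : TH V Q (Kd N Λ B FB)) (h : okT N e c s x) : TV N e c s := ⟨x, h⟩

private theorem pb_coreT (b : Bool) (u z : V) :
    (∃ q j, pb N e c s b u (GH.core z : GH V Q (Kd N Λ B FB)) = .gho q j) ∨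
      ∃ w, pb N e c s b u (GH.core z : GH V Q (Kd N Λ B FB)) = .core w := by
  by_cases h : b = true ∧ ∃ q, c.ow q = u ∧ c.ow ((c.nx^[2 * e]) q) = z
  · exact Or.inl ⟨_, _, dif_pos h⟩
  · exact Or.inr ⟨_, dif_neg h⟩

private theorem lvl (hT : StTok) (hp : Par N e) (hc : CoreAx N e c) (hs : ChAx N c s) :
    ∀ (i : ℕ) (x : TH V Q (Kd N Λ B FB)), okT N e c s x → i ≤ tlev N c x →
      okT N e c s ((tpar N e c s)^[i] x) ∧ tlev N c ((tpar N e c s)^[i] x) + i = tlev N c x ∧
        pc ((tpar N e c s)^[i] x) = pc x := by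
  intro i
  induction i with
  | zero => intro x hx _; exact ⟨hx, rfl, rfl⟩
  | succ n ih =>
    intro x hx hi
    obtain ⟨h1, h2, h3⟩ := hT.ok N e c s hp hc hs x hx (by omega)
    obtain ⟨h4, h5, h6⟩ := ih (tpar N e c s x) h1 (by omega)
    rw [Function.iterate_succ_apply]
    exact ⟨h4, by omega, h6.trans h3⟩

private theorem it_nat (b : Bool) (u : V) (h : GH V Q (Kd N Λ B FB)) (k : ℕ) :
    (tpar N e c s)^[k] (.nat b u h) = .nat b u ((pb N e c s b u)^[k] h) := by
  induction k generalizing h with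
  | zero => rfl
  | succ n ih =>
    rw [Function.iterate_succ_apply, Function.iterate_succ_apply]
    exact ih _

private theorem eq_of {x y : TV N e c s} {D : ℕ} (h1 : (TG N e c s).edist x y ≤ (D : ℕ∞))
    (h2 : ∀ d : ℕ, (TG N e c s).edist x y ≤ (d : ℕ∞) → D ≤ d) :
    (TG N e c s).edist x y = (D : ℕ∞) := by
  refine le_antisymm h1 ?_
  obtain ⟨m, hm⟩ := ENat.ne_top_iff_exists.1 (ne_top_of_le_ne_top (ENat.natCast_ne_top D) h1)
  rw [← hm]
  exact_mod_cast h2 m (by rw [← hm])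

private theorem levn (hT : StTok) (hp : Par N e) (hc : CoreAx N e c) (hs : ChAx N c s)
    (b : Bool) (u : V) (h : GH V Q (Kd N Λ B FB)) (hok : okT N e c s (.nat b u h)) (k : ℕ)
    (hk : k ≤ lev N c u h) : okG N e c ((pb N e c s b u)^[k] h) ∧
      lev N c u ((pb N e c s b u)^[k] h) + k = lev N c u h := by
  have h1 := lvl hT hp hc hs k (.nat b u h) hok hk
  rw [it_nat] at h1
  exact ⟨h1.1.2.1, h1.2.1⟩

private theorem toRoot (hT : StTok) (hp : Par N e) (hc : CoreAx N e c) (hs : ChAx N c s)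
    (b : Bool) (u : V) (h : GH V Q (Kd N Λ B FB)) (hok : okT N e c s (.nat b u h)) :
    (pb N e c s b u)^[lev N c u h] h = .core u := by
  have h1 := lvl hT hp hc hs (lev N c u h) (.nat b u h) hok le_rfl
  rw [it_nat] at h1
  obtain ⟨h2, h3, -⟩ := h1
  have h4 : tlev N c (TH.nat b u ((pb N e c s b u)^[lev N c u h] h) : TH V Q (Kd N Λ B FB)) =
      0 := by
    have h5 : tlev N c (TH.nat b u h : TH V Q (Kd N Λ B FB)) = lev N c u h := rfl
    omega
  rcases hT.zero N e c s hp hc hs _ h2 h4 with h5 | ⟨b', u', -, h5⟩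
  · cases h5
  · have h6 : u = u' := by injection h5
    have h7 : (pb N e c s b u)^[lev N c u h] h = .core u' := by injection h5
    rw [h7, h6]

/-- two hubs which only meet at the root -/
private theorem meet (hT : StTok) (hD : StTdist) (hp : Par N e) (hc : CoreAx N e c)
    (hs : ChAx N c s) (x y : TV N e c s) (b : Bool) (u : V) (h h' : GH V Q (Kd N Λ B FB))
    (hx : x.1 = .nat b u h) (hy : y.1 = .nat b u h')
    (hm : ∀ i j, i < lev N c u h → j < lev N c u h' →
      (pb N e c s b u)^[i] h = (pb N e c s b u)^[j] h' → False) :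
    (TG N e c s).edist x y = ((lev N c u h + lev N c u h' : ℕ) : ℕ∞) := by
  have hpc : pc x.1 = pc y.1 := by rw [hx, hy]; rfl
  have okx : okT N e c s (.nat b u h) := hx ▸ x.2
  have oky : okT N e c s (.nat b u h') := hy ▸ y.2
  have lx : tlev N c x.1 = lev N c u h := by rw [hx]; rfl
  have ly : tlev N c y.1 = lev N c u h' := by rw [hy]; rfl
  refine eq_of ?_ ?_
  · rw [hD.inn N e c s hp hc hs x y hpc]
    refine ⟨lev N c u h, lev N c u h', by rw [lx], by rw [ly], le_rfl, ?_⟩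
    rw [hx, hy, it_nat, it_nat, toRoot hT hp hc hs b u h okx, toRoot hT hp hc hs b u h' oky]
  · intro d hd
    obtain ⟨i, j, hi, hj, hij, h1⟩ := (hD.inn N e c s hp hc hs x y hpc d).1 hd
    rw [lx] at hi
    rw [ly] at hj
    rw [hx, hy, it_nat, it_nat] at h1
    have h2 : (pb N e c s b u)^[i] h = (pb N e c s b u)^[j] h' := by injection h1
    have h3 := (levn hT hp hc hs b u h okx i hi).2
    have h4 := (levn hT hp hc hs b u h' oky j hj).2
    rw [h2] at h3
    by_contra hlt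
    exact hm i j (by omega) (by omega) h2

/-- own trunk and fans -/
private def Ow (u : V) (g : GH V Q (Kd N Λ B FB)) : Prop :=
  (∃ j, g = .tru u j) ∨ ∃ l, g = .fan u l

private theorem owBack (b : Bool) (u : V) (g : GH V Q (Kd N Λ B FB))
    (hg : Ow u (pb N e c s b u g)) : Ow u g := by
  unfold Ow at hg ⊢
  cases g with
  | core z =>
    exfalso
    rcases pb_coreT (N := N) (e := e) (c := c) (s := s) b u z with ⟨q, j, h6⟩ | ⟨w, h6⟩
    · rw [h6] at hg
      rcases hg with ⟨j, h7⟩ | ⟨l, h7⟩ <;> cases h7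
    · rw [h6] at hg
      rcases hg with ⟨j, h7⟩ | ⟨l, h7⟩ <;> cases h7
  | gho q j =>
    exfalso
    have h6 : pb N e c s b u (GH.gho q j : GH V Q (Kd N Λ B FB)) =
      if j ≤ 1 then .core (c.ow q) else .gho q (j - 1) := rfl
    rw [h6] at hg
    split_ifs at hg <;> rcases hg with ⟨j, h7⟩ | ⟨l, h7⟩ <;> cases h7
  | tru z j =>
    have h6 : pb N e c s b u (GH.tru z j : GH V Q (Kd N Λ B FB)) =
      if j ≤ 1 then .core z else .tru z (j - 1) := rfl
    rw [h6] at hg
    split_ifs at hg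
    · rcases hg with ⟨j, h7⟩ | ⟨l, h7⟩ <;> cases h7
    · rcases hg with ⟨j', h7⟩ | ⟨l, h7⟩
      · have h8 : z = u := by injection h7
        rw [h8]
        exact Or.inl ⟨_, rfl⟩
      · cases h7
  | fan z l =>
    have h6 : pb N e c s b u (GH.fan z l : GH V Q (Kd N Λ B FB)) =
      .tru z (2 * N - 1) := rfl
    rw [h6] at hg
    rcases hg with ⟨j', h7⟩ | ⟨l', h7⟩
    · have h8 : z = u := by injection h7
      rw [h8]
      exact Or.inr ⟨_, rfl⟩
    · cases h7

private theorem owBacks (b : Bool) (u : V) (g : GH V Q (Kd N Λ B FB)) (k : ℕ)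
    (hg : Ow u ((pb N e c s b u)^[k] g)) : Ow u g := by
  induction k with
  | zero => exact hg
  | succ n ih =>
    rw [Function.iterate_succ_apply'] at hg
    exact ih (owBack b u _ hg)

private theorem owAnc (b : Bool) (u : V) (l : Finset (Kd N Λ B FB)) (k : ℕ)
    (hk : k < 2 * N) : Ow u ((pb N e c s b u)^[k] (.fan u l)) := by
  unfold Ow
  rcases k with _ | k
  · exact Or.inr ⟨_, rfl⟩
  · left
    have h1 : ∀ k, k + 1 < 2 * N → (pb N e c s b u)^[k + 1] (.fan u l) =
        (GH.tru u (2 * N - 1 - k) : GH V Q (Kd N Λ B FB)) := by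
      intro k
      induction k with
      | zero => intro _; rfl
      | succ n ih =>
        intro hn
        rw [Function.iterate_succ_apply', ih (by omega)]
        have h6 : pb N e c s b u (GH.tru u (2 * N - 1 - n) : GH V Q (Kd N Λ B FB)) =
          if 2 * N - 1 - n ≤ 1 then .core u else .tru u (2 * N - 1 - n - 1) := rfl
        rw [h6, if_neg (by omega)]
        congr 1
    exact ⟨_, h1 k hk⟩

private theorem depT : dep N true = 2 * N := rfl

private theorem depF : dep N false = 2 * N - 1 := rfl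

private theorem seeFan (hT : StTok) (hD : StTdist) (hp : Par N e) (hc : CoreAx N e c)
    (hs : ChAx N c s) (x y : TV N e c s) (u : V) (h : GH V Q (Kd N Λ B FB))
    (l : Finset (Kd N Λ B FB)) (hx : x.1 = .nat true u h) (h1 : ∀ j, h ≠ .tru u j)
    (h2 : ∀ l', h ≠ .fan u l') (hy : y.1 = .nat true u (.fan u l)) :
    (TG N e c s).edist x y = ((2 * N + lev N c u h : ℕ) : ℕ∞) := by
  have h3 : lev N c u (GH.fan u l : GH V Q (Kd N Λ B FB)) = 2 * N := by
    show c.G.dist u u + 2 * N = 2 * N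
    rw [SimpleGraph.dist_self, zero_add]
  have h4 := meet hT hD hp hc hs x y true u h (.fan u l) hx hy ?_
  · rw [h4, h3, add_comm]
  · rw [h3]
    intro i j _ hj he
    have h5 := owAnc (N := N) (e := e) (c := c) (s := s) true u l j hj
    rw [← he] at h5
    rcases owBacks true u h i h5 with ⟨j, h6⟩ | ⟨l', h6⟩
    · exact h1 j h6
    · exact h2 l' h6

private theorem low (hT : StTok) (hD : StTdist) (hp : Par N e) (hc : CoreAx N e c)
    (hs : ChAx N c s) (x y : TV N e c s) (hxy : pc x.1 = pc y.1) (r : ℕ)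
    (h : (TG N e c s).edist x y ≤ (r : ℕ∞)) : tlev N c x.1 ≤ tlev N c y.1 + r := by
  obtain ⟨i, j, hi, hj, hij, h1⟩ := (hD.inn N e c s hp hc hs x y hxy r).1 h
  have h2 := (lvl hT hp hc hs i x.1 x.2 hi).2.1
  have h3 := (lvl hT hp hc hs j y.1 y.2 hj).2.1
  rw [h1] at h2
  omega

private theorem okp (hp : Par N e) (b : Bool) (u : V) (hu : s.rp u = u) :
    okT N e c s (.pth b u 1) := by
  obtain ⟨h1, h2⟩ := hp
  exact ⟨hu, le_rfl, by omega⟩

private theorem toPiece (hT : StTok) (hD : StTdist) (hp : Par N e) (hc : CoreAx N e c)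
    (hs : ChAx N c s) (x υ : TV N e c s) (b : Bool) (u : V) (h : GH V Q (Kd N Λ B FB))
    (hx : x.1 = .nat b u h) (hυ : ∃ b u h, υ.1 = .cap b u h) (r : ℕ)
    (hr : (TG N e c s).edist υ x ≤ (r : ℕ∞)) :
    ∃ (υ' : TV N e c s) (h' : GH V Q (Kd N Λ B FB)), υ'.1 = .cap b u h' ∧
      (TG N e c s).edist υ' x ≤ (r : ℕ∞) := by
  obtain ⟨b', u', h', hυ⟩ := hυ
  by_cases hbu : (b', u') = (b, u)
  · obtain ⟨rfl, rfl⟩ := Prod.mk.inj hbu
    exact ⟨υ, h', hυ, hr⟩
  · have hok : okT N e c s (.nat b u h) := hx ▸ x.2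
    have hu : s.rp u = u := hok.1
    have hokc := hT.okc (Λ := Λ) (B := B) (FB := FB) N e c s hp hc hs b u hu
    refine ⟨tv _ hokc, cc N s b u, rfl, ?_⟩
    have h1 := hD.out N e c s hp hc hs x υ (tv _ hokc) (tv _ (okp hp b u hu)) b u
      (by rw [hx]; rfl) (by
        rw [hυ]
        intro h2
        exact hbu (Option.some.inj h2)) rfl rfl
    rw [SimpleGraph.edist_comm] at hr ⊢
    rw [h1] at hr
    refine le_trans ?_ hr
    rw [add_assoc]
    exact le_self_add

private theorem seeCap (hT : StTok) (hD : StTdist) (hp : Par N e) (hc : CoreAx N e c)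
    (hs : ChAx N c s) (x y : TV N e c s) (b : Bool) (u : V) (h : GH V Q (Kd N Λ B FB))
    (b' : Bool) (u' : V) (h' : GH V Q (Kd N Λ B FB))
    (hx : x.1 = .nat b u h) (hy : y.1 = .cap b' u' h') :
    ((dep N b + 1 : ℕ) : ℕ∞) ≤ (TG N e c s).edist x y + ((lev N c u h : ℕ) : ℕ∞) := by
  by_cases ht : (TG N e c s).edist x y = ⊤
  · rw [ht, top_add]
    exact le_top
  · obtain ⟨r, hr⟩ := ENat.ne_top_iff_exists.1 ht
    have hr' : (TG N e c s).edist y x ≤ (r : ℕ∞) := by
      rw [SimpleGraph.edist_comm, ← hr]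
    obtain ⟨υ', h'', h1, h2⟩ := toPiece hT hD hp hc hs x y b u h hx ⟨_, _, _, hy⟩ r hr'
    have h3 := low hT hD hp hc hs υ' x (by rw [h1, hx]; rfl) r h2
    rw [h1, hx] at h3
    have h4 : okT N e c s (.cap b u h'') := h1 ▸ υ'.2
    have h5 : lev N c u h'' = dep N b := h4.2.2.1
    have h6 : tlev N c (TH.cap b u h'' : TH V Q (Kd N Λ B FB)) = lev N c u h'' + 1 := rfl
    have h7 : tlev N c (TH.nat b u h : TH V Q (Kd N Λ B FB)) = lev N c u h := rfl
    rw [← hr]
    have h8 : dep N b + 1 ≤ r + lev N c u h := by omega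
    exact_mod_cast h8

end gen

section lab

variable {N e : ℕ} {c : Core V Q Λ B FB} {s : Ch V Q}

private theorem glCore (z : V) :
    gl N e c (GH.core z : GH V Q (Kd N Λ B FB)) = {Kd.kap (c.lb z)} := by
  simp only [gl]

private theorem mem_e (q : Q) (κ : Kd N Λ B FB) :
    κ ∈ gl N e c (GH.gho q e : GH V Q (Kd N Λ B FB)) ↔
      κ = Kd.kap (c.lb (c.ow ((c.nx^[e]) q))) ∨ κ = Kd.kap (c.lb (c.ow ((c.nx^[3 * e]) q))) := by
  simp only [gl, if_true, Finset.mem_insert, Finset.mem_singleton]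

private theorem mem_g (q : Q) (j : ℕ) (hj : j ≠ e) (κ : Kd N Λ B FB) :
    κ ∈ gl N e c (GH.gho q j : GH V Q (Kd N Λ B FB)) ↔
      κ = Kd.gam (c.bs (c.lb (c.ow q))) (c.fl q) ∨ κ = piK N j := by
  simp only [gl, if_neg hj, Finset.mem_insert, Finset.mem_singleton]

private theorem mem_t (z : V) (j : ℕ) (κ : Kd N Λ B FB) :
    κ ∈ gl N e c (GH.tru z j : GH V Q (Kd N Λ B FB)) ↔
      κ = Kd.del (c.lb z) ∨ κ = piK N j := by
  simp only [gl, Finset.mem_insert, Finset.mem_singleton]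

private theorem noFg (l : Finset (Kd N Λ B FB)) (hl : l ∈ NLb N e c) (i : Fin 4) :
    Kd.fg i ∉ l := by
  rcases hl with ⟨x, rfl⟩ | ⟨q, j, -, -, rfl⟩ | ⟨x, j, -, -, rfl⟩
  · rw [glCore, Finset.mem_singleton]
    exact nofun
  · by_cases hj : j = e
    · subst hj
      rw [mem_e]
      rintro (h | h) <;> cases h
    · rw [mem_g q j hj]
      rintro (h | h) <;> cases h
  · rw [mem_t]
    rintro (h | h) <;> cases h

private theorem plnNoFg (l : Finset (Kd N Λ B FB)) (hl : PlnL N l) (i : Fin 4) :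
    Kd.fg i ∉ l := by
  rcases hl with ⟨a, rfl⟩ | ⟨b, f, j, h⟩ | ⟨a, j, h⟩
  · rw [Finset.mem_singleton]
    exact nofun
  · rw [h]
    rintro (h | h) <;> cases h
  · rw [h]
    rintro (h | h) <;> cases h

/-- the two kinds of an `e`-ghost differ -/
private theorem kapNe (hP : StPb) (hp : Par N e) (hc : CoreAx N e c) (hs : ChAx N c s) (q : Q) :
    c.lb (c.ow ((c.nx^[e]) q)) ≠ c.lb (c.ow ((c.nx^[3 * e]) q)) := by
  intro h
  have h1 := ((hP (K := Kd N Λ B FB) N e c s hp hc hs true (c.ow q)).2.2 q rfl).2.1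
  refine h1 (hc.k5 _ _ ?_ (by rw [h]))
  have h2 := hc.iso ((c.nx^[e]) q) (2 * e) le_rfl
  have h3 : (c.nx^[2 * e]) ((c.nx^[e]) q) = (c.nx^[3 * e]) q := by
    rw [← Function.iterate_add_apply]
    congr 1
    omega
  rw [h3] at h2
  rw [h2]
  have h4 := hp.1
  have h5 : 2 * e ≤ 4 * N + 2 := by omega
  exact_mod_cast h5

private theorem plnNotE (hP : StPb) (hp : Par N e) (hc : CoreAx N e c) (hs : ChAx N c s)
    (q : Q) : ¬ PlnL N (gl N e c (GH.gho q e : GH V Q (Kd N Λ B FB))) := by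
  have h1 := (mem_e (N := N) (c := c) (e := e) q (Kd.kap (c.lb (c.ow ((c.nx^[e]) q))))).2
    (Or.inl rfl)
  have h2 := (mem_e (N := N) (c := c) (e := e) q (Kd.kap (c.lb (c.ow ((c.nx^[3 * e]) q))))).2
    (Or.inr rfl)
  rintro (⟨a, h⟩ | ⟨b, f, j, h⟩ | ⟨a, j, h⟩)
  · rw [h, Finset.mem_singleton] at h1 h2
    have h3 : c.lb (c.ow ((c.nx^[e]) q)) = a := by injection h1
    have h4 : c.lb (c.ow ((c.nx^[3 * e]) q)) = a := by injection h2
    exact kapNe hP hp hc hs q (h3.trans h4.symm)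
  · rw [h] at h1
    rcases h1 with h1 | h1 <;> cases h1
  · rw [h] at h1
    rcases h1 with h1 | h1 <;> cases h1

variable [Fintype Λ] [Fintype B] [Fintype FB]

private theorem fgCap (y : TV N e c s) (b : Bool) (u : V) (h : GH V Q (Kd N Λ B FB))
    (hy : y.1 = .cap b u h) : ∃ i, Kd.fg i ∈ tL N e c s y := by
  refine ⟨if b = true then 1 else 0, ?_⟩
  unfold tL
  rw [hy]
  simp [tl]

private theorem fgPth (y : TV N e c s) (b : Bool) (u : V) (j : ℕ)
    (hy : y.1 = .pth b u j) : ∃ i, Kd.fg i ∈ tL N e c s y := by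
  refine ⟨2, ?_⟩
  unfold tL
  rw [hy]
  simp [tl]

private theorem fgRt (y : TV N e c s) (hy : y.1 = .rt) : ∃ i, Kd.fg i ∈ tL N e c s y := by
  refine ⟨3, ?_⟩
  unfold tL
  rw [hy]
  simp only [tl]
  exact Finset.mem_singleton_self _

private theorem natOf (y : TV N e c s) (hy : ∀ i, Kd.fg i ∉ tL N e c s y) :
    ∃ b u h, y.1 = .nat b u h := by
  rcases hyy : y.1 with ⟨b, u, h⟩ | ⟨b, u, h⟩ | ⟨b, u, j⟩ | _
  · exact ⟨b, u, h, rfl⟩
  · obtain ⟨i, hi⟩ := fgCap y b u h hyy
    exact absurd hi (hy i)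
  · obtain ⟨i, hi⟩ := fgPth y b u j hyy
    exact absurd hi (hy i)
  · obtain ⟨i, hi⟩ := fgRt y hyy
    exact absurd hi (hy i)

private theorem seeNat (hD : StTdist) (hp : Par N e) (hc : CoreAx N e c)
    (hs : ChAx N c s) (x y : TV N e c s) (b : Bool) (u : V) (h : GH V Q (Kd N Λ B FB))
    (hx : x.1 = .nat b u h) (hd : (TG N e c s).edist x y ≤ ((2 * N : ℕ) : ℕ∞))
    (hy : ∀ i, Kd.fg i ∉ tL N e c s y) : ∃ h', y.1 = .nat b u h' := by
  obtain ⟨b', u', h', h1⟩ := natOf y hy
  rcases hD.near N e c s hp hc hs x y b u (by rw [hx]; rfl) hd with h2 | ⟨j, h2⟩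
  · rw [h1] at h2
    have h3 : (b', u') = (b, u) := Option.some.inj h2
    obtain ⟨rfl, rfl⟩ := Prod.mk.inj h3
    exact ⟨h', h1⟩
  · rw [h1] at h2
    cases h2

private theorem seeCore (hT : StTok) (hP : StPb) (hD : StTdist) (hp : Par N e)
    (hc : CoreAx N e c) (hs : ChAx N c s) (x y : TV N e c s) (b : Bool) (u : V)
    (h : GH V Q (Kd N Λ B FB)) (a : Λ) (d : ℕ)
    (hx : x.1 = .nat b u h) (h1 : ∀ j, h ≠ .tru u j) (h2 : ∀ l', h ≠ .fan u l')
    (hd : (TG N e c s).edist x y = (d : ℕ∞)) (hd2 : d ≤ 2 * N)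
    (hd3 : d < 2 * N + lev N c u h) (hy : tL N e c s y = {Kd.kap a}) :
    ∃ z, y.1 = .nat b u (.core z) ∧ c.lb z = a := by
  obtain ⟨h', h3⟩ := seeNat hD hp hc hs x y b u h hx (by
    rw [hd]
    exact_mod_cast hd2) (by
    intro i
    rw [hy, Finset.mem_singleton]
    exact nofun)
  have h4 : gl N e c h' = {Kd.kap a} := by
    rw [← hy]
    unfold tL
    rw [h3]
    rfl
  have hok : okT N e c s (.nat b u h') := h3 ▸ y.2
  cases h' with
  | core z =>
    refine ⟨z, h3, ?_⟩
    rw [glCore, Finset.singleton_inj] at h4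
    injection h4
  | gho q j =>
    exfalso
    by_cases hj : j = e
    · subst hj
      refine plnNotE (Λ := Λ) (B := B) (FB := FB) hP hp hc hs q ?_
      rw [h4]
      exact Or.inl ⟨a, rfl⟩
    · have h5 := (mem_g (N := N) (c := c) (e := e) q j hj
        (Kd.gam (c.bs (c.lb (c.ow q))) (c.fl q))).2 (Or.inl rfl)
      rw [h4, Finset.mem_singleton] at h5
      cases h5
  | tru z j =>
    exfalso
    have h5 := (mem_t (N := N) (c := c) (e := e) z j (Kd.del (c.lb z))).2 (Or.inl rfl)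
    rw [h4, Finset.mem_singleton] at h5
    cases h5
  | fan z l =>
    exfalso
    have h5 : lev N c u (GH.fan z l : GH V Q (Kd N Λ B FB)) = c.G.dist u z + 2 * N := rfl
    have hp1 := hp.1
    have hp2 := hp.2
    rcases hok.2.2 with h6 | ⟨-, q, -, h6⟩
    · cases b with
      | true =>
        rw [h5, depT] at h6
        have h7 : c.G.dist u z = 0 := by omega
        rw [hc.conn.dist_eq_zero_iff] at h7
        subst h7
        have h8 := seeFan hT hD hp hc hs x y u h l hx h1 h2 h3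
        rw [hd] at h8
        have h9 : d = 2 * N + lev N c u h := by exact_mod_cast h8
        omega
      | false =>
        rw [h5, depF] at h6
        omega
    · cases h6

private theorem seeSep (hT : StTok) (hP : StPb) (hD : StTdist) (hI : StTinj) (hp : Par N e)
    (hc : CoreAx N e c) (hs : ChAx N c s) (x y : TV N e c s) (hxy : x ≠ y)
    (hl : tL N e c s x = tL N e c s y) (hpl : PlnL N (tL N e c s x)) :
    ((2 * N : ℕ) : ℕ∞) ≤ (TG N e c s).edist x y := by
  by_contra hlt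
  push Not at hlt
  have hle := hlt.le
  obtain ⟨b, u, h, hx⟩ := natOf x (plnNoFg _ hpl)
  obtain ⟨h', hy⟩ := seeNat hD hp hc hs x y b u h hx hle (by
    rw [← hl]
    exact plnNoFg _ hpl)
  have hxl : tL N e c s x = gl N e c h := by
    unfold tL
    rw [hx]
    rfl
  have hyl : tL N e c s y = gl N e c h' := by
    unfold tL
    rw [hy]
    rfl
  have okx : okT N e c s (.nat b u h) := hx ▸ x.2
  have oky : okT N e c s (.nat b u h') := hy ▸ y.2
  rw [hxl, hyl] at hl
  rw [hxl] at hpl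
  -- a fan and another hub
  have key : ∀ (x y : TV N e c s) (h h' : GH V Q (Kd N Λ B FB)), x.1 = .nat true u h →
      y.1 = .nat true u h' → x ≠ y → gl N e c h = gl N e c h' → (∃ l, h' = .fan u l) →
      (TG N e c s).edist x y < ((2 * N : ℕ) : ℕ∞) → False := by
    rintro x y h h' hx hy hxy hl ⟨l, rfl⟩ hlt
    have okx : okT N e c s (.nat true u h) := hx ▸ x.2
    have oky : okT N e c s (.nat true u (.fan u l)) := hy ▸ y.2
    have h1 : gl N e c (GH.fan u l : GH V Q (Kd N Λ B FB)) = l := rfl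
    rw [h1] at hl
    have h2 := seeFan hT hD hp hc hs x y u h l hx ?_ ?_ hy
    · rw [h2] at hlt
      have h3 : 2 * N + lev N c u h < 2 * N := by exact_mod_cast hlt
      omega
    · rintro j rfl
      have h3 : 1 ≤ j ∧ j < 2 * N := okx.2.1
      exact oky.2.1.2 j h3.1 h3.2 hl.symm
    · rintro l' rfl
      have h3 : l' = l := hl
      subst h3
      exact hxy (Subtype.ext (hx.trans hy.symm))
  rcases hI.nat N e c s hp hc hs b u h h' okx oky hl with h1 | ⟨rfl, h1⟩ | ⟨rfl, h1⟩ |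
    ⟨q, q', h1, h2⟩
  · subst h1
    exact hxy (Subtype.ext (hx.trans hy.symm))
  · exact key y x h' h hy hx hxy.symm hl.symm h1 (by rw [SimpleGraph.edist_comm]; exact hlt)
  · exact key x y h h' hx hy hxy hl h1 hlt
  · subst h1
    exact plnNotE hP hp hc hs q hpl

end lab

theorem pTsee : StTok → StPb → StTdist → StTinj → StTsee := by
  intro hT hP hD hI
  refine ⟨?_, ?_, ?_, ?_, ?_⟩
  · intro V Q Λ B FB _ _ _ N e c s hp hc hs x y b u h hx hd hy
    exact seeNat hD hp hc hs x y b u h hx hd (noFg _ hy)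
  · intro V Q Λ B FB N e c s hp hc hs x y u h l hx h1 h2 hy
    exact seeFan hT hD hp hc hs x y u h l hx h1 h2 hy
  · intro V Q Λ B FB N e c s hp hc hs x y b u h b' u' h' hx hy
    exact seeCap hT hD hp hc hs x y b u h b' u' h' hx hy
  · intro V Q Λ B FB _ _ _ N e c s hp hc hs x y b u h a d hx h1 h2 hd hd2 hd3 hy
    exact seeCore hT hP hD hp hc hs x y b u h a d hx h1 h2 hd hd2 hd3 hy
  · intro V Q Λ B FB _ _ _ N e c s hp hc hs x y hxy hl hpl
    exact seeSep hT hP hD hI hp hc hs x y hxy hl hpl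

end Pool.Agent.Helper98.LD
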